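import Pool.Agent.MP_c434f6_gt.Rhomb

/-! The compact part of the horizontal slice, and Hopf's secant argument. -/

open Complex Filter Topology Set
open scoped Real ComplexConjugate

namespace Pool.Agent.MP_c434f6_gt

lemma trap {g : ℝ → ℝ} {a b u v : ℝ} (h : a ≤ b) (hg : ContinuousOn g (Icc a b)) (h1 : u < g a)
    (h2 : g a < v) (h3 : ∀ x ∈ Icc a b, g x ≠ u ∧ g x ≠ v) : u < g b ∧ g b < v :=
  ⟨isPreconnected_Icc.lt_of_ne hg (fun x hx => (h3 x hx).1) ⟨a, left_mem_Icc.2 h, h1⟩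
    (right_mem_Icc.2 h), isPreconnected_Icc.gt_of_ne hg (fun x hx => (h3 x hx).2)
      ⟨a, left_mem_Icc.2 h, h2⟩ (right_mem_Icc.2 h)⟩

lemma sin_const {g : ℝ → ℝ} {a b : ℝ} (h : a ≤ b) (hg : ContinuousOn g (Icc a b))
    (h3 : ∀ x ∈ Icc a b, Real.sin (g x) = 0) : g b = g a := by
  have p := Real.pi_pos
  have s (x) (hx : x ∈ Icc a b) : Real.sin (g x - g a) = 0 := by
    simp [Real.sin_sub, h3 x hx, h3 a (left_mem_Icc.2 h)]
  have := trap h (hg.fun_sub (continuousOn_const (c := g a))) (u := -(π / 2)) (v := π / 2)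
    (by simpa using p) (by simpa using p) fun x hx =>
      ⟨fun e => by have := s x hx; simp [e] at this, fun e => by have := s x hx; simp [e] at this⟩
  exact sub_eq_zero.1 ((Real.sin_eq_zero_iff_of_lt_of_lt (by linarith [this.1])
    (by linarith [this.2])).1 (s b (right_mem_Icc.2 h)))

lemma hopf {L x₀ : ℝ} {c : ℝ → ℂ} {ρ θ : ℝ → ℝ} (hL : 0 < L)
    (hc : ∀ t ∈ Ioo 0 L, HasDerivAt c (ρ t * exp (θ t * I)) t) (hρ : ∀ t ∈ Ioo 0 L, 0 < ρ t)
    (cρ : ContinuousOn ρ (Ioo 0 L)) (cθ : ContinuousOn θ (Ioo 0 L)) (inj : InjOn c (Ioo 0 L))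
    (him : ∀ t ∈ Ioo 0 L, (c t).im ≠ 0) (sym : ∀ t ∈ Ioo 0 L, c (L - t) = -conj (c t))
    (lim : Tendsto c (𝓝[>] 0) (𝓝 x₀)) (hx : x₀ < 0) (hθ : ∀ᶠ t in 𝓝[>] 0, θ t ∈ Ioo (-π) 0) :
    θ (L / 2) = 0 := by
  have l1 : Tendsto (fun t => (c t).re) (𝓝[>] 0) (𝓝 x₀) := (continuous_re.tendsto _).comp lim
  have l2 : Tendsto (fun t => (c t).im) (𝓝[>] 0) (𝓝 0) := (continuous_im.tendsto _).comp lim
  obtain ⟨δ, δ0 : 0 < δ, hδ⟩ := (mem_nhdsGT_iff_exists_Ioc_subset).1 (hθ.and ((l1.eventually_lt_const hx).and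
    (Ioo_mem_nhdsGT (half_pos hL))))
  have δ1 : δ < L / 2 := (hδ ⟨δ0, le_rfl⟩).2.2.2
  have s1 : Ioc 0 δ ⊆ Ioo 0 L := fun t ht => ⟨ht.1, by linarith [ht.2]⟩
  have di (t) (ht : t ∈ Ioo 0 L) := imCLM.hasFDerivAt.comp_hasDerivAt t (hc t ht)
  have ci : ContinuousOn (fun t => (c t).im) (Ioo 0 L) := fun t ht =>
    (di t ht).continuousAt.continuousWithinAt
  have an : StrictAntiOn (fun t => (c t).im) (Ioc 0 δ) :=
    strictAntiOn_of_hasDerivWithinAt_neg (convex_Ioc _ _) (ci.mono s1)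
      (fun t ht => (di t (s1 (interior_subset ht))).hasDerivWithinAt) fun t ht => by
        have ht := interior_subset ht
        simpa [exp_ofReal_mul_I_im] using mul_neg_of_pos_of_neg (hρ t (s1 ht))
          (Real.sin_neg_of_neg_of_neg_pi_lt (hδ ht).1.2 (hδ ht).1.1)
  have ng : ∀ t ∈ Ioo 0 L, (c t).im < 0 := fun t ht => isPreconnected_Ioo.gt_of_ne ci him
    ⟨δ, s1 ⟨δ0, le_rfl⟩, (an ⟨half_pos δ0, half_le_self δ0.le⟩ ⟨δ0, le_rfl⟩
      (half_lt_self δ0)).trans_le (ge_of_tendsto l2 (mem_of_superset (Ioo_mem_nhdsGT (half_pos δ0))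
        fun x hx => (an ⟨hx.1, by linarith [hx.2]⟩ ⟨half_pos δ0, half_le_self δ0.le⟩ hx.2).le))⟩ ht
  have s2 : Icc δ (L / 2) ⊆ Ioo 0 L := fun t ht => ⟨δ0.trans_le ht.1, by linarith [ht.2]⟩
  obtain ⟨m, m1, m2⟩ := isCompact_Icc.exists_isMaxOn (nonempty_Icc.2 δ1.le) (ci.mono s2)
  obtain ⟨ε, e1, e0, e2⟩ := ((l2.eventually_const_lt (ng m (s2 m1))).and (Ioo_mem_nhdsGT δ0)).exists
  have mx (t) (ht : t ∈ Icc ε (L - ε)) : (c t).im ≤ (c ε).im := by
    wlog h : t ≤ L / 2 generalizing t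
    · simpa [sym t ⟨e0.trans_le ht.1, by linarith [ht.2]⟩] using
        this (L - t) ⟨by linarith [ht.2], by linarith [ht.1]⟩ (by linarith)
    rcases le_total t δ with H | H
    exacts [an.antitoneOn ⟨e0, e2.le⟩ ⟨e0.trans_le ht.1, H⟩ ht.1, (m2 ⟨H, h⟩).trans e1.le]
  have hle : ε / 2 ≤ L - ε / 2 := by linarith
  have s3 : Icc (ε / 2) (L - ε / 2) ⊆ Ioo 0 L := fun t ht => ⟨by linarith [ht.1], by linarith [ht.2]⟩
  obtain ⟨g, cg, hg⟩ : ∃ g : ℝ → ℂ, Continuous g ∧ ∀ t ∈ Icc (ε / 2) (L - ε / 2),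
      g t = ρ t * exp (θ t * I) := by
    have a := cρ.comp_continuous (continuous_subtype_val.comp (continuous_projIcc (h := hle)))
      fun t => s3 (Subtype.prop _)
    have b := cθ.comp_continuous (continuous_subtype_val.comp (continuous_projIcc (h := hle)))
      fun t => s3 (Subtype.prop _)
    exact ⟨_, (continuous_ofReal.comp a).mul ((continuous_ofReal.comp b).mul
      (continuous_const (y := I))).cexp, fun t ht => by simp [projIcc_of_mem hle ht]⟩
  obtain ⟨σ, cσ, σ1, σ2⟩ : ∃ σ : ℝ × ℝ → ℂ, Continuous σ ∧ (∀ t ∈ Icc (ε / 2) (L - ε / 2),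
      σ (t, t) = ρ t * exp (θ t * I)) ∧ ∀ a ∈ Icc (ε / 2) (L - ε / 2), ∀ b ∈ Icc (ε / 2) (L - ε / 2),
      (b - a : ℝ) * σ (a, b) = c b - c a := by
    refine ⟨fun p => ∫ s in (0 : ℝ)..1, g (p.1 + s * (p.2 - p.1)), by fun_prop,
      fun t ht => by simp [hg t ht], fun a ha b hb => ?_⟩
    rw [← intervalIntegral.integral_const_mul, intervalIntegral.integral_eq_sub_of_hasDerivAt
      (f := fun s => c (a + s * (b - a))) (f' := fun s => (b - a : ℝ) * g (a + s * (b - a)))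
      (fun s hs => ?_) (Continuous.intervalIntegrable (by fun_prop) _ _)]
    · simp
    rw [uIcc_of_le zero_le_one] at hs
    have m : a + s * (b - a) ∈ Icc (ε / 2) (L - ε / 2) :=
      ⟨by nlinarith [ha.1, hb.1, hs.1, hs.2], by nlinarith [ha.2, hb.2, hs.1, hs.2]⟩
    simpa [hg _ m, Function.comp_def] using (hc _ (s3 m)).scomp s
      (((hasDerivAt_id' s).mul_const (b - a)).const_add a)
  have cv := (convex_Ioo (𝕜 := ℝ) (ε / 2) (L - ε / 2)).prod (convex_Ioo (ε / 2) (L - ε / 2))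
  have := cv.contractibleSpace ⟨(L / 2, L / 2), by constructor <;> constructor <;> linarith⟩
  obtain ⟨F, cF, hF⟩ := exists_continuousOn_eqOn_exp_comp (SimplyConnectedSpace.ofContractible _)
    (isOpen_Ioo.prod isOpen_Ioo) cσ.continuousOn (by
      rintro ⟨⟨a, b⟩, ⟨ha, hb⟩, h⟩
      have ha := Ioo_subset_Icc_self ha
      have hb := Ioo_subset_Icc_self hb
      have := σ2 a ha b hb
      rw [h, mul_zero, eq_comm, sub_eq_zero] at this
      obtain rfl : b = a := inj (s3 hb) (s3 ha) this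
      exact mul_ne_zero (ofReal_ne_zero.2 (hρ _ (s3 ha)).ne') (exp_ne_zero _) (σ1 _ ha ▸ h))
  have i (t) (ht : t ∈ Icc ε (L - ε)) : t ∈ Ioo (ε / 2) (L - ε / 2) :=
    ⟨by linarith [ht.1], by linarith [ht.2]⟩
  have cp {a b : ℝ} {u v : ℝ → ℝ} (hu : Continuous u) (hv : Continuous v)
      (h : ∀ t ∈ Icc a b, u t ∈ Icc ε (L - ε) ∧ v t ∈ Icc ε (L - ε)) :
      ContinuousOn (fun t => (F (u t, v t)).im) (Icc a b) := continuous_im.comp_continuousOn
    (cF.comp (hu.prodMk hv).continuousOn fun t ht => ⟨i _ (h t ht).1, i _ (h t ht).2⟩)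
  have dg (t) (ht : t ∈ Icc ε (L - ε)) :
      Real.sin ((F (t, t)).im - θ t) = 0 ∧ 0 < Real.cos ((F (t, t)).im - θ t) := by
    have m := Ioo_subset_Icc_self (i t ht)
    have : exp (F (t, t) - θ t * I) = ρ t := by
      rw [exp_sub, show exp (F (t, t)) = _ from hF ⟨i t ht, i t ht⟩, σ1 t m,
        mul_div_cancel_right₀ _ (exp_ne_zero _)]
    have a := congrArg im this
    have b := congrArg re this
    simp only [exp_im, exp_re, ofReal_im, ofReal_re, sub_im, mul_I_im, mul_eq_zero,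
      Real.exp_ne_zero, false_or] at a b
    exact ⟨a, pos_of_mul_pos_right (b ▸ hρ t (s3 m)) (Real.exp_pos _).le⟩
  have sec (a) (ha : a ∈ Icc ε (L - ε)) (b) (hb : b ∈ Icc ε (L - ε)) :
      (b - a) * (Real.exp (F (a, b)).re * Real.sin (F (a, b)).im) = (c b).im - (c a).im ∧
      (b - a) * (Real.exp (F (a, b)).re * Real.cos (F (a, b)).im) = (c b).re - (c a).re := by
    have := σ2 a (Ioo_subset_Icc_self (i a ha)) b (Ioo_subset_Icc_self (i b hb))
    rw [← show exp (F (a, b)) = _ from hF ⟨i a ha, i b hb⟩] at this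
    exact ⟨by simpa only [im_ofReal_mul, exp_im, sub_im] using congrArg im this,
      by simpa only [re_ofReal_mul, exp_re, sub_re] using congrArg re this⟩
  have me : ε ∈ Icc ε (L - ε) := ⟨le_rfl, by linarith⟩
  have mL : L - ε ∈ Icc ε (L - ε) := ⟨by linarith, le_rfl⟩
  have eL : ε ∈ Ioo 0 L := ⟨e0, by linarith⟩
  have k1 := sin_const (a := ε) (b := L / 2) (by linarith) ((cp continuous_id' continuous_id'
    fun t ht => ⟨⟨ht.1, by linarith [ht.2]⟩, ht.1, by linarith [ht.2]⟩).fun_sub (cθ.mono fun t ht =>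
      ⟨e0.trans_le ht.1, by linarith [ht.2]⟩)) fun t ht => (dg t ⟨ht.1, by linarith [ht.2]⟩).1
  have ad (t) (ht : t ∈ Icc ε (L / 2)) : t ∈ Icc ε (L - ε) ∧ L - t ∈ Icc ε (L - ε) :=
    ⟨⟨ht.1, by linarith [ht.2]⟩, by linarith [ht.2], by linarith [ht.1]⟩
  have c2 := cp continuous_id' (continuous_const.fun_sub continuous_id') ad
  have k2 := sin_const (a := ε) (b := L / 2) (by linarith) c2 fun t ht => by
    refine IsClosed.closure_subset_iff (s := Ico ε (L / 2)) (c2.preimage_isClosed_of_isClosed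
      isClosed_Icc (isClosed_eq Real.continuous_sin continuous_const)) |>.2 (fun t ht => ?_)
        (by rwa [closure_Ico (by linarith)]) |>.2
    have h := (sec _ (ad t (Ico_subset_Icc_self ht)).1 _ (ad t (Ico_subset_Icc_self ht)).2).1
    rw [sym t ⟨e0.trans_le ht.1, by linarith [ht.2]⟩] at h
    refine ⟨Ico_subset_Icc_self ht, ?_⟩
    simpa [show L - t - t ≠ 0 by linarith [ht.2]] using h
  obtain ⟨d1, d2⟩ := dg ε me
  generalize hκ : (F (ε, ε)).im - θ ε = κ at d1 d2 k1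
  have d3 : Real.cos κ = 1 := by nlinarith [Real.sin_sq_add_cos_sq κ]
  have sn (t) (ht : t ∈ Icc ε (L - ε)) : Real.sin ((F (ε, t)).im - κ) ≤ 0 := by
    rcases ht.1.eq_or_lt with rfl | h
    · rw [← hκ, sub_sub_cancel]
      exact (Real.sin_neg_of_neg_of_neg_pi_lt (hδ ⟨e0, e2.le⟩).1.2 (hδ ⟨e0, e2.le⟩).1.1).le
    · rw [Real.sin_sub, d1, d3, mul_zero, mul_one, sub_zero]
      exact nonpos_of_mul_nonpos_right (nonpos_of_mul_nonpos_right ((sec _ me _ ht).1.trans_le
        (sub_nonpos.2 (mx t ht))) (sub_pos.2 h)) (Real.exp_pos _)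
  have p := Real.pi_pos
  have k3 := trap (a := ε) (b := L - ε) (u := π / 2 - 2 * π) (v := π / 2) (by linarith)
    ((cp continuous_const continuous_id' fun t ht => ⟨me, ht⟩).fun_sub (continuousOn_const (c := κ)))
    (by linarith [(hδ ⟨e0, e2.le⟩).1.1])
    (by linarith [(hδ ⟨e0, e2.le⟩).1.2]) fun t ht =>
      ⟨fun e => by have := sn t ht; rw [e, Real.sin_sub_two_pi] at this
                   norm_num at this, fun e => by
        have := sn t ht; rw [e] at this; norm_num at this⟩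
  obtain ⟨f1, f2⟩ := sec _ me _ mL
  rw [sym ε eL] at f1 f2
  have g1 : Real.sin (F (ε, L - ε)).im = 0 := by simpa [show L - ε - ε ≠ 0 by linarith] using f1
  have g2 : 0 < Real.cos (F (ε, L - ε)).im := pos_of_mul_pos_right (pos_of_mul_pos_right
    (lt_of_lt_of_eq (by simpa using (hδ ⟨e0, e2.le⟩).2.1) f2.symm) (by linarith)) (Real.exp_pos _).le
  have := (Real.cos_eq_one_iff_of_lt_of_lt (x := (F (ε, L - ε)).im - κ) (by linarith [k3.1])
    (by linarith [k3.2])).1 (by
      rw [Real.cos_sub, d1, d3]; nlinarith [Real.sin_sq_add_cos_sq (F (ε, L - ε)).im])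
  simp only [sub_half] at k1 k2
  linarith

variable {T b a e : ℝ} {f P : ℂ → ℂ}

lemma hd_im (hT : 0 < T) {γ : ℝ → ℂ} {γ' : ℂ} {t : ℝ} (hγ : HasDerivAt γ γ' t)
    (h : γ t ∉ Lat (om T)) :
    HasDerivAt (fun t => (La (om T) (γ t)).im) (γ' * Lp (om T) (γ t)).im t :=
  imCLM.hasFDerivAt.comp_hasDerivAt t ((hd_La (hom hT) h).scomp t hγ)

lemma nmS {s t : ℝ} (ht : t ∈ Ioo 0 (π / 2)) : (s : ℂ) + t * I ∉ Lat (om T) :=
  nmB (by simpa using ht.1) (by simpa using ht.2)

lemma Surf.im_neg (h : Surf T b a e f P) {t : ℝ} (ht : t ∈ Ioo 0 (π / 2)) :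
    (La (om T) (t * I)).im < 0 := by
  have hT := h.pos
  have p := Real.pi_pos
  have n (t : ℝ) (ht : t ∈ Ioc 0 (π / 2)) (x : ℝ) (hx : |x| < T) : (t : ℂ) * I + x ∉ Lat (om T) :=
    nmC (by simp [abs_lt]; constructor <;> linarith [ht.1, ht.2])
      (fun e => ht.1.ne' (by simpa using congrArg im e)) (by simpa using hx)
  have n0 (t : ℝ) (ht : t ∈ Ioc 0 (π / 2)) : (t : ℂ) * I ∉ Lat (om T) := by
    simpa using n t ht 0 (by simpa using hT)
  have d (t : ℝ) (ht : t ∈ Ioc 0 (π / 2)) :=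
    hd_im hT ((hasDerivAt_id' (t : ℂ)).comp_ofReal.mul_const I) (n0 t ht)
  have z : (La (om T) ((π / 2 : ℝ) * I)).im = 0 := by
    have m := n0 _ ⟨half_pos p, le_rfl⟩
    have := La_neg (hom hT) m
    rw [← La_pi, show -(((π / 2 : ℝ) : ℂ) * I) + π * I = (π / 2 : ℝ) * I by push_cast; ring] at this
    rw [self_eq_neg.1 this, zero_im]
  refine isPreconnected_Ioo.gt_of_ne (fun t ht => (d t (Ioo_subset_Ioc_self ht)).continuousAt
    |>.continuousWithinAt) (fun t ht e => ?_) ?_ ht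
  · obtain ⟨x, hx, e⟩ := exists_hasDerivAt_eq_zero ht.2 (fun x hx => (d x ⟨ht.1.trans_le hx.1,
      hx.2⟩).continuousAt.continuousWithinAt) (e.trans z.symm) fun x hx =>
        d x ⟨ht.1.trans hx.1, hx.2.le⟩
    have m : x ∈ Ioc 0 (π / 2) := ⟨ht.1.trans hx.1, hx.2.le⟩
    have i : (Lp (om T) (x * I)).im = 0 := conj_eq_iff_im.1 (by
      rw [← Lp_conj, ← Lp_neg (hom hT) (n0 x m)]; simp)
    obtain H | H := deg2 (hom hT) (nmP h.hb (by linarith [h.hT])) (n0 x m)
      (h.zero ▸ Complex.ext (by simpa using e) i)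
    · exact n x m (-b) (by simpa [abs_of_pos h.hb] using h.hT) (by simpa [sub_eq_add_neg] using H)
    · exact n x m b (by simpa [abs_of_pos h.hb] using h.hT) H
  · obtain ⟨g, ag, hg⟩ := ok_La (hom hT)
    have t0 : Tendsto (fun t : ℝ => (t : ℂ) * I) (𝓝[>] 0) (𝓝[≠] 0) := tendsto_nhdsWithin_iff.2
      ⟨(Continuous.tendsto' (by fun_prop) 0 0 (by simp)).mono_left nhdsWithin_le_nhds,
        eventually_mem_nhdsWithin.mono fun x hx => by simpa using ne_of_gt hx⟩
    have t1 : Tendsto (fun t : ℝ => t * (g (t * I)).im) (𝓝[>] 0) (𝓝 (0 * (g 0).im)) :=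
      (tendsto_id.mono_left nhdsWithin_le_nhds).mul ((continuous_im.tendsto _).comp
        ((ag.continuousAt.tendsto.mono_left nhdsWithin_le_nhds).comp t0))
    obtain ⟨x, h1, h2, h3⟩ := ((t0.eventually hg).and ((t1.eventually_lt_const
      (u := 1) (by simp)).and (Ioo_mem_nhdsGT (half_pos p)))).exists
    refine ⟨x, h3, neg_of_mul_neg_left (a := _) (b := x) ?_ h3.1.le⟩
    rw [← h1] at h2
    have := h3.1.ne'
    simp only [sub_im, one_div, mul_inv, inv_I, ← ofReal_inv, mul_neg, neg_im, im_ofReal_mul, I_im,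
      mul_sub, mul_one, mul_inv_cancel₀ this] at h2
    linarith

lemma Surf.mono (h : Surf T b a e f P) {t : ℝ} (ht : t ∈ Ioo 0 (π / 2)) :
    (∀ s ∈ Ioo 0 T, 0 < (Lp (om T) (s + t * I)).im) ∧
    StrictMonoOn (fun s : ℝ => (La (om T) (s + t * I)).im) (Icc 0 T) ∧
    ∃ s ∈ Ioo 0 T, (La (om T) (s + t * I)).im = 0 := by
  have hT := h.pos
  have d (s : ℝ) := hd_im hT ((hasDerivAt_id' (s : ℂ)).comp_ofReal.add_const (t * I)) (nmS ht)
  simp only [one_mul] at d
  have c := (continuous_iff_continuousAt.2 fun s => (d s).continuousAt).continuousOn (s := Icc 0 T)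
  have u0 : (La (om T) ((0 : ℝ) + t * I)).im < 0 := by simpa using h.im_neg ht
  have u1 : 0 < (La (om T) (T + t * I)).im := by
    have m : π / 2 - t ∈ Ioo 0 (π / 2) := ⟨by linarith [ht.2], by linarith [ht.1]⟩
    rw [show T + t * I = om T - (π / 2 - t : ℝ) * I by rw [om]; push_cast; ring,
      La_sub hT (by simpa using nmS (s := 0) m)]
    simpa using h.im_neg m
  have sg := isPreconnected_Ioo.mapsTo_Ioi_or_Iio (s := Ioo 0 T) (b := 0)
    (f := fun s : ℝ => (Lp (om T) (s + t * I)).im) (fun s _ => (continuous_im.continuousAt.comp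
      (ContinuousAt.comp (f := fun s : ℝ => (s : ℂ) + t * I) (an_Lp (hom hT) (nmS ht)).continuousAt
        (by fun_prop))).continuousWithinAt) fun s hs e => by
      obtain H | H := deg2 (hom hT) (conj_nm (nmS (s := s) ht)) (nmS ht)
        (by rw [Lp_conj, conj_eq_iff_im.2 e])
      · exact nmC (by simp [abs_lt]; constructor <;> linarith [ht.1, ht.2])
          (fun e => ht.1.ne' (by simpa using congrArg im e)) (by simpa using hT) H
      · exact nmP (T := T) (x := 2 * s) (by linarith [hs.1]) (by linarith [hs.2])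
          (by rwa [add_conj, show (s + t * I : ℂ).re = s by simp] at H)
  have ps := sg.resolve_right fun H => (u0.trans u1).not_gt (strictAntiOn_of_hasDerivWithinAt_neg
    (convex_Icc 0 T) c (fun s _ => (d s).hasDerivWithinAt) (fun s hs => H (by simpa using hs))
      (left_mem_Icc.2 hT.le) (right_mem_Icc.2 hT.le) hT)
  exact ⟨ps, strictMonoOn_of_hasDerivWithinAt_pos (convex_Icc 0 T) c
    (fun s _ => (d s).hasDerivWithinAt) fun s hs => ps (by simpa using hs),
    intermediate_value_Ioo hT.le c ⟨u0, u1⟩⟩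

lemma Surf.cone (h : Surf T b a e f P) : ∀ᶠ t : ℝ in 𝓝[>] 0,
    (La (om T) ((b - t : ℝ) + t * I)).im < 0 ∧ 0 < (La (om T) ((b + t : ℝ) + t * I)).im := by
  have hT := h.pos
  have n := nmP h.hb (show b < 2 * T by linarith [h.hT])
  have n2 : (b : ℂ) + b ∉ Lat (om T) := by
    exact_mod_cast nmP (add_pos h.hb h.hb) (by linarith [h.hT])
  have d := (an_Lp (hom hT) n).differentiableAt.hasDerivAt.comp_ofReal
  have i : (deriv (Lp (om T)) b).im = 0 := (imCLM.hasFDerivAt.comp_hasDerivAt b d).unique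
    ((hasDerivAt_const b 0).congr_of_eventuallyEq (.of_forall fun x => Lp_im x))
  have r : 0 < (deriv (Lp (om T)) b).re := lt_of_le_of_ne ((hd_Lp hT n).hasDerivWithinAt
    |>.nonneg_of_monotoneOn ((isOpen_Ioo.preperfect b ⟨h.hb, h.hT⟩).mono
      (principal_mono.2 Ioo_subset_Ioc_self)) (Lp_mono hT).monotoneOn)
    fun e => dLp_ne (hom hT) n n2 (Complex.ext e.symm i)
  obtain ⟨F, aF, hF⟩ := (AnalyticAt.comp_of_eq (an_La (hom hT) n) (f := fun z : ℂ => b + z)
    (by fun_prop) (add_zero _)).exists_eventuallyEq_sum_add_pow_mul 3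
  have d1 : deriv (La (om T)) =ᶠ[𝓝 (b : ℂ)] Lp (om T) :=
    (ev_U (hom hT) n).mono fun z hz => (hd_La (hom hT) hz).deriv
  simp only [Finset.sum_range_succ, Finset.range_zero, Finset.sum_empty, Function.comp_def,
    iteratedDeriv_comp_const_add, add_zero, iteratedDeriv_succ, iteratedDeriv_zero,
    d1.self_of_nhds, d1.deriv_eq, h.zero, smul_eq_mul] at hF
  have k (σ : ℝ) (hσ : σ * σ = 1) : ∀ᶠ t : ℝ in 𝓝[>] 0,
      0 < σ * (La (om T) ((b + σ * t : ℝ) + t * I)).im := by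
    have t0 : Tendsto (fun t : ℝ => (σ + I) * t) (𝓝[>] 0) (𝓝 0) :=
      (Continuous.tendsto' (by fun_prop) 0 0 (by simp)).mono_left nhdsWithin_le_nhds
    have t1 : Tendsto (fun t : ℝ => (deriv (Lp (om T)) b).re +
        t * (σ * ((σ + I) ^ 3 * F ((σ + I) * t)).im)) (𝓝[>] 0)
        (𝓝 ((deriv (Lp (om T)) b).re + 0 * (σ * ((σ + I) ^ 3 * F 0).im))) :=
      ((tendsto_id.mono_left nhdsWithin_le_nhds).mul (((continuous_im.tendsto _).comp
        ((aF.continuousAt.tendsto.comp t0).const_mul _)).const_mul _)).const_add _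
    filter_upwards [t0.eventually hF, t1.eventually_const_lt (u := 0) (by simpa using r),
      self_mem_nhdsWithin] with t h1 h2 (h3 : 0 < t)
    rw [show ((b + σ * t : ℝ) : ℂ) + t * I = b + (σ + I) * t by push_cast; ring, h1, mul_pow _ _ 3,
      mul_comm (_ ^ 3), mul_assoc, ← ofReal_pow, add_im, im_ofReal_mul]
    generalize ((σ + I) ^ 3 * F ((σ + I) * t)).im = y at *
    simp [La_im, i, sq]
    linear_combination mul_pos (mul_pos h3 h3) h2 - t * t * (deriv (Lp (om T)) b).re * hσ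
  filter_upwards [k (-1) (by ring), k 1 (by ring)] with t h1 h2
  exact ⟨by simpa [sub_eq_add_neg] using h1, by simpa using h2⟩

lemma Surf.arc (h : Surf T b a e f P) : ∃ s : ℝ → ℝ, (∀ t ∈ Ioo 0 (π / 2),
    (La (om T) (s t + t * I)).im = 0 ∧ 0 < (Lp (om T) (s t + t * I)).im ∧ s t ∈ Ioo 0 T ∧
    s (π / 2 - t) = T - s t ∧ HasDerivAt (fun t => (s t : ℂ) + t * I)
      (Lp (om T) (s t + t * I) * ((Lp (om T) (s t + t * I))⁻¹).im)⁻¹ t) ∧
    ∀ᶠ t in 𝓝[>] 0, |s t - b| ≤ t := by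
  have hT := h.pos
  choose! s s1 s2 using fun t ht => (h.mono (t := t) ht).2.2
  have m (t) (ht : t ∈ Ioo 0 (π / 2)) := (h.mono ht).2.1
  have i (t) (ht : t ∈ Ioo 0 (π / 2)) := Ioo_subset_Icc_self (s1 t ht)
  have lt (t) (ht : t ∈ Ioo 0 (π / 2)) (x) (hx : x ∈ Icc 0 T) :
      (x < s t ↔ (La (om T) (x + t * I)).im < 0) ∧ (s t < x ↔ 0 < (La (om T) (x + t * I)).im) :=
    ⟨by rw [← (m t ht).lt_iff_lt hx (i t ht), s2 t ht], by
      rw [← (m t ht).lt_iff_lt (i t ht) hx, s2 t ht]⟩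
  refine ⟨s, fun t ht => ⟨s2 t ht, (h.mono ht).1 _ (s1 t ht), s1 t ht, ?_, ?_⟩, ?_⟩
  · have ht' : π / 2 - t ∈ Ioo 0 (π / 2) := ⟨by linarith [ht.2], by linarith [ht.1]⟩
    refine (m _ ht').injOn (i _ ht') ⟨by linarith [(i t ht).2], by linarith [(i t ht).1]⟩
      ((s2 _ ht').trans (Eq.symm ?_))
    rw [show ((T - s t : ℝ) : ℂ) + (π / 2 - t : ℝ) * I = om T - (s t + t * I) by
      rw [om]; push_cast; ring, La_sub hT (nmS ht)]
    simpa using s2 t ht
  · have nh := Ioo_mem_nhds ht.1 ht.2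
    have cu (x : ℝ) := (hd_im hT (γ := fun t : ℝ => (x : ℂ) + t * I)
      (((hasDerivAt_id' (t : ℂ)).comp_ofReal.mul_const I).const_add _) (nmS ht)).continuousAt
    have cs : ContinuousAt s t := tendsto_order.2 ⟨fun x hx => by
      rcases lt_or_ge x 0 with H | H
      · exact mem_of_superset nh fun t ht => H.trans (s1 t ht).1
      · have mx : x ∈ Icc 0 T := ⟨H, hx.le.trans (i t ht).2⟩
        filter_upwards [nh, (cu x).eventually_lt continuousAt_const ((lt t ht x mx).1.1 hx)]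
          with t ht h using (lt t ht x mx).1.2 h, fun x hx => by
      rcases lt_or_ge T x with H | H
      · exact mem_of_superset nh fun t ht => (s1 t ht).2.trans H
      · have mx : x ∈ Icc 0 T := ⟨(i t ht).1.trans hx.le, H⟩
        filter_upwards [nh, continuousAt_const.eventually_lt (cu x) ((lt t ht x mx).2.1 hx)]
          with t ht h using (lt t ht x mx).2.2 h⟩
    have p := (h.mono ht).1 _ (s1 t ht)
    have p0 : Lp (om T) (s t + t * I) ≠ 0 := fun e => by simp [e] at p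
    have p1 : ((Lp (om T) (s t + t * I))⁻¹).im ≠ 0 := by
      simp [p.ne', p0]
    have cq : ContinuousAt (fun x : ℝ => dslope (La (om T)) (s t + t * I) (s x + x * I)) t :=
      ContinuousAt.comp (f := fun x : ℝ => (s x : ℂ) + x * I)
        (an_dslope (an_La (hom hT) (nmS ht))).continuousAt (by fun_prop)
    have q0 : dslope (La (om T)) (s t + t * I) (s t + t * I) = Lp (om T) (s t + t * I) := by
      rw [dslope_same, (hd_La (hom hT) (nmS ht)).deriv]
    have cq' := continuous_im.continuousAt.comp (cq.inv₀ (q0 ▸ p0))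
    rw [hasDerivAt_iff_tendsto_slope, ← q0]
    refine ((cq.mul (continuous_ofReal.continuousAt.comp cq')).inv₀ (by
      simp only [Pi.mul_apply, Function.comp, Pi.inv_apply, q0]
      exact mul_ne_zero p0 (ofReal_ne_zero.2 p1))).tendsto.mono_left nhdsWithin_le_nhds |>.congr' ?_
    filter_upwards [self_mem_nhdsWithin, nhdsWithin_le_nhds nh,
      nhdsWithin_le_nhds (cq.eventually_ne (q0 ▸ p0))] with x (h1 : x ≠ t) h2 h3
    have e1 := sub_smul_dslope (La (om T)) (s t + t * I) (s x + x * I)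
    simp only [Pi.inv_apply, Pi.mul_apply, Function.comp, slope_def_module]
    generalize dslope (La (om T)) (s t + t * I) (s x + x * I) = q at *
    obtain ⟨r, hr⟩ : ∃ r : ℝ, La (om T) (s x + x * I) - La (om T) (s t + t * I) = r :=
      ⟨_, (conj_eq_iff_re.1 (conj_eq_iff_im.2 (by simp [s2 x h2, s2 t ht]))).symm⟩
    rw [hr, smul_eq_mul, ← eq_mul_inv_iff_mul_eq₀ h3] at e1
    have e2 : x - t = r * q⁻¹.im := by simpa [-inv_im] using congrArg im e1
    have e3 := sub_ne_zero.2 h1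
    rw [e1, e2, real_smul]
    rw [e2] at e3
    have := ofReal_ne_zero.2 (left_ne_zero_of_mul e3)
    have := ofReal_ne_zero.2 (right_ne_zero_of_mul e3)
    generalize q⁻¹.im = y at *
    push_cast
    field_simp
  · filter_upwards [h.cone, Ioo_mem_nhdsGT (half_pos Real.pi_pos), Ioo_mem_nhdsGT h.hb,
      Ioo_mem_nhdsGT (sub_pos.2 h.hT)] with t h1 h2 h3 h4
    have a1 := (lt t h2 (b - t) ⟨by linarith [h3.2], by linarith [h3.1, h.hT]⟩).1.2 h1.1
    have a2 := (lt t h2 (b + t) ⟨by linarith [h3.1, h.hb], by linarith [h4.2]⟩).2.2 h1.2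
    exact abs_le.2 ⟨by linarith, by linarith⟩

/-- A logarithm of the Gauss map. -/
noncomputable def lg (T b a e : ℝ) (ξ : ℂ) : ℂ :=
  -(∫ s in -b..b, La (om T) (ξ + s)) - a * La (om T) ξ + e * ξ

lemma hd_lg (hT : 0 < T) (hb : 0 < b) {ξ : ℂ} (h : ∀ s : ℝ, |s| ≤ b → ξ + s ∉ Lat (om T)) :
    HasDerivAt (lg T b a e) (La (om T) (ξ - b) - La (om T) (ξ - -b) - a * Lp (om T) ξ + e) ξ :=
  (((hd_int fun s hs => an_La (hom hT) (h s (abs_le.2 (by rwa [uIcc_of_le (by linarith)] at hs))))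
    |>.neg.sub ((hd_La (hom hT) (by simpa using h 0 (by simpa using hb.le))).const_mul (a : ℂ))).add
      ((hasDerivAt_id' ξ).const_mul (e : ℂ))).congr_deriv (by simp [sub_eq_add_neg])

lemma nmT {ξ : ℂ} (h1 : 0 < ξ.im) (h2 : ξ.im < π / 2) (s : ℝ) : ξ + s ∉ Lat (om T) :=
  nmB (by simpa using h1) (by simpa using h2)

lemma Surf.expl (h : Surf T b a e f P) {z : ℂ} (h1 : 0 < z.im) (h2 : z.im < π / 2) :
    f z = Lp (om T) z * exp (lg T b a e z - lg T b a e T) := by
  have hT := h.pos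
  have p := Real.pi_pos
  obtain ⟨U, hU⟩ : ∃ U, U = {z : ℂ | 0 < z.im} ∩ {z | z.im < π / 2} ∪ ({z | b < z.re} ∩
    {z | z.re < 2 * T - b} ∩ ({z | -(π / 2) < z.im} ∩ {z | z.im < π / 2})) := ⟨_, rfl⟩
  have n (z) (hz : z ∈ U) (s : ℝ) (hs : |s| ≤ b) : z + s ∉ Lat (om T) := by
    obtain ⟨s1, s2⟩ := abs_le.1 hs
    obtain ⟨h1, h2⟩ | ⟨⟨h1 : b < z.re, h2 : z.re < _⟩, h3, h4⟩ := hU ▸ hz
    · exact nmT h1 h2 s
    · exact nmA (by simpa using abs_lt.2 ⟨h3, h4⟩) (fun e => by
        have := congrArg re e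
        simp at this; linarith) (by simp [abs_lt]; constructor <;> linarith)
  have n0 (z) (hz : z ∈ U) : z ∉ Lat (om T) := by simpa using n z hz 0 (by simpa using h.hb.le)
  have o : IsOpen U := by
    rw [hU]
    refine ((isOpen_lt ?_ ?_).inter (isOpen_lt ?_ ?_)).union (((isOpen_lt ?_ ?_).inter
      (isOpen_lt ?_ ?_)).inter ((isOpen_lt ?_ ?_).inter (isOpen_lt ?_ ?_))) <;> fun_prop
  have m : (T : ℂ) ∈ U := hU ▸ .inr ⟨⟨h.hT, by simp; linarith [h.hT]⟩, by simpa using p,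
    by simpa using p⟩
  have d (z) (hz : z ∈ U) := (an_Lp (hom hT) (n0 z hz)).differentiableAt.hasDerivAt.fun_mul
    (hd_lg (a := a) (e := e) hT h.hb (n z hz)).cexp
  have l0 : Lp (om T) T ≠ 0 := fun e => by simpa [e] using h.LpT
  have := ode_eq o (hU ▸ (((convex_halfSpace_im_gt 0).inter (convex_halfSpace_im_lt _))
    |>.isPreconnected.union (T + π / 4 * I) ⟨by simpa using p, by simp; linarith⟩
      ⟨⟨by simpa using h.hT, by simp; linarith [h.hT]⟩, by simp; linarith, by simp; linarith⟩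
      (((convex_halfSpace_re_gt _).inter (convex_halfSpace_re_lt _)).inter
        ((convex_halfSpace_im_gt _).inter (convex_halfSpace_im_lt _))).isPreconnected))
    (h.hol.mono n0) (fun z hz => (d z hz).differentiableAt.differentiableWithinAt) m
    (mul_ne_zero l0 (exp_ne_zero _)) (by
      filter_upwards [nhdsWithin_le_nhds (o.mem_nhds m), ev_nm (hom hT) T b,
        Ia (hom hT) (nmP h.hb (by linarith [h.hT])) T] with z h1 h2 h3
      rw [(d z h1).deriv, h.ode z (n0 z h1) h2, ← h3, h.zero]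
      ring) (z := z) (hU ▸ .inl ⟨h1, h2⟩)
  rw [h.fT] at this
  rw [exp_sub]
  field_simp
  exact mul_left_cancel₀ l0 (by linear_combination this)

lemma lg_im (x : ℝ) : (lg T b a e x).im = 0 := by
  have : ∫ s in -b..b, La (om T) (x + s) = ∫ s in -b..b, ((La (om T) (x + s)).re : ℂ) :=
    congrArg (intervalIntegral · _ _ _) (funext fun s => Complex.ext rfl (by
      exact_mod_cast La_im (x + s)))
  simp [lg, this, intervalIntegral.integral_ofReal, La_im]

lemma cLa (hT : 0 < T) {ξ : ℂ} (h1 : 0 < ξ.im) (h2 : ξ.im < π / 2) :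
    Continuous fun s : ℝ => La (om T) (ξ + s) := continuous_iff_continuousAt.2 fun s =>
  ContinuousAt.comp (f := fun s : ℝ => ξ + s) (an_La (hom hT) (nmT h1 h2 s)).continuousAt
    (by fun_prop)

lemma lg_two (hT : 0 < T) {ξ : ℂ} (h1 : 0 < ξ.im) (h2 : ξ.im < π / 2) :
    lg T b a e (ξ + 2 * T) = lg T b a e ξ + (2 * e * T - 8 * b - 4 * a : ℝ) := by
  simp only [lg, add_right_comm ξ (2 * T), La_two hT (nmT h1 h2 _), La_two hT (nmB h1 h2)]
  rw [intervalIntegral.integral_add ((cLa hT h1 h2).intervalIntegrable _ _) (by simp)]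
  simp
  ring

lemma int_half (hT : 0 < T) : ∫ s in -b..b, La (om T) (om T / 2 + s) = 2 * b := by
  have p := Real.pi_pos
  have h1 : 0 < (om T / 2).im := by simpa using p
  have h2 : (om T / 2).im < π / 2 := by simp; linarith
  have := intervalIntegral.integral_comp_neg (a := -b) (b := b)
    fun s : ℝ => La (om T) (om T / 2 + s)
  simp only [neg_neg, ofReal_neg, fun s : ℂ => show om T / 2 + -s = om T - (om T / 2 + s) by ring,
    La_sub hT (nmT h1 h2 _)] at this
  rw [intervalIntegral.integral_sub (by simp) ((cLa hT h1 h2).intervalIntegrable _ _)] at this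
  simp at this
  linear_combination -this / 2

lemma Surf.lg_near (h : Surf T b a e f P) {s : ℝ → ℝ} (h1 : ∀ᶠ t in 𝓝[>] 0, |s t - b| ≤ t)
    (h2 : ∀ t ∈ Ioo 0 (π / 2), (La (om T) (s t + t * I)).im = 0)
    (h3 : Tendsto (fun t => (s t : ℂ) + t * I) (𝓝[>] 0) (𝓝 b)) :
    ∀ᶠ t in 𝓝[>] 0, (lg T b a e (s t + t * I)).im ∈ Ioo 0 π := by
  have hT := h.pos
  obtain ⟨k, ak, k0, hk, -⟩ := La_zero (hom hT)
  obtain ⟨g, hg⟩ : ∃ g, g = Function.update (fun z => La (om T) z - 1 / z) 0 0 := ⟨_, rfl⟩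
  have g1 (z) (hz : z ≠ 0) : g z = La (om T) z - 1 / z := by rw [hg, Function.update_of_ne hz]
  have ag (x : ℝ) (hx : x ∈ uIcc (-b) b) : AnalyticAt ℂ g (b + x) := by
    rw [uIcc_of_le (by linarith [h.hb])] at hx
    rcases hx.1.eq_or_lt with rfl | H
    · rw [ofReal_neg, add_neg_cancel]
      refine ak.congr ((eventually_nhdsWithin_iff.1 hk).mono fun z hz => ?_)
      rcases eq_or_ne z 0 with rfl | H
      · simp [hg, k0]
      · rw [g1 z H, hz H]; ring
    · have n := nmP (T := T) (x := b + x) (by linarith) (by linarith [hx.2, h.hT])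
      push_cast at n
      have n0 : (b : ℂ) + x ≠ 0 := fun e => n (e ▸ zero_mem _)
      exact ((an_La (hom hT) n).sub (analyticAt_const.div analyticAt_id n0)).congr
        ((eventually_ne_nhds n0).mono fun z hz => (g1 z hz).symm)
  have i0 : (∫ x in -b..b, g (b + x)).im = 0 := by
    have : ∫ x in -b..b, g (b + x) = ∫ x in -b..b, ((g (b + x)).re : ℂ) :=
      congrArg (intervalIntegral · _ _ _) (funext fun x => Complex.ext rfl (by
        rw [← ofReal_add]
        rcases eq_or_ne ((b + x : ℝ) : ℂ) 0 with H | H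
        · simp [H, hg]
        · rw [g1 _ H, one_div, ← ofReal_inv, sub_im, La_im]; simp only [ofReal_im, sub_zero]))
    rw [this, intervalIntegral.integral_ofReal, ofReal_im]
  have b2 : (b : ℂ) + b ∈ slitPlane := .inl (by simpa using h.hb)
  have t1 := ((((continuousAt_arg b2).tendsto.comp (h3.add_const (b : ℂ))).add
    ((continuous_im.tendsto _).comp ((hd_int ag).continuousAt.tendsto.comp h3))).sub
      ((tendsto_id.mono_left nhdsWithin_le_nhds).const_mul e)).abs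
  rw [i0, ← ofReal_add, arg_ofReal_of_nonneg (by linarith [h.hb])] at t1
  filter_upwards [h1, t1.eventually_lt_const (u := 1 / 2) (by simp),
    Ioo_mem_nhdsGT (half_pos Real.pi_pos)] with t h4 h5 ht
  have h6 := h2 t ht
  simp only [Function.comp, id] at h5
  have r : (s t + t * I : ℂ).re = s t := by simp
  have i : (s t + t * I : ℂ).im = t := by simp
  generalize (s t + t * I : ℂ) = ξ at *
  have sp (x : ℝ) : ξ + x ∈ slitPlane := .inr (by simpa [i] using ht.1.ne')
  have c1 := cLa hT (i ▸ ht.1) (i ▸ ht.2)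
  have c2 : Continuous fun x : ℝ => (ξ + x)⁻¹ :=
    Continuous.inv₀ (by fun_prop) fun x => slitPlane_ne_zero (sp x)
  have e1 := intervalIntegral.integral_eq_sub_of_hasDerivAt (a := -b) (b := b)
    (fun x _ => (HasDerivAt.comp_const_add ξ (x : ℂ) (Complex.hasDerivAt_log (sp x))).comp_ofReal)
    (c2.intervalIntegrable _ _)
  simp only [g1 _ (slitPlane_ne_zero (sp _)), one_div] at h5
  rw [intervalIntegral.integral_sub (c1.intervalIntegrable _ _) (c2.intervalIntegrable _ _), e1] at h5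
  have n0 := norm_pos_iff.2 (slitPlane_ne_zero (sp (-b)))
  have s1 : 1 / 2 ≤ Real.sin (arg (ξ + (-b : ℝ))) := by
    rw [sin_arg, le_div_iff₀ n0]
    have := norm_le_abs_re_add_abs_im (ξ + (-b : ℝ))
    simp only [add_re, add_im, ofReal_re, ofReal_im, add_zero, r, i, abs_of_pos ht.1,
      ← sub_eq_add_neg] at this ⊢
    linarith
  have s2 := Real.sin_le (arg_nonneg_iff.2 (show 0 ≤ (ξ + (-b : ℝ)).im by simpa [i] using ht.1.le))
  have s3 := Real.sin_le (sub_nonneg.2 (arg_le_pi (ξ + (-b : ℝ))))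
  simp only [sub_im, log_im, abs_lt, Real.sin_pi_sub] at h5 s3
  simp only [lg, add_im, sub_im, neg_im, im_ofReal_mul, h6, i]
  constructor <;> linarith [h5.1, h5.2]

theorem Surf.ae (h : Surf T b a e f P) : a = 2 * T - 2 * b ∧ e = 4 := by
  have hT := h.pos
  have p := Real.pi_pos
  obtain ⟨s, hs, h1⟩ := h.arc
  have h3 : Tendsto (fun t => (s t : ℂ) + t * I) (𝓝[>] 0) (𝓝 b) := by
    have t0 : Tendsto (fun t : ℝ => t) (𝓝[>] 0) (𝓝 0) := tendsto_id.mono_left nhdsWithin_le_nhds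
    simpa using (tendsto_iff_norm_sub_tendsto_zero.2 (squeeze_zero' (.of_forall fun _ =>
      norm_nonneg _) h1 t0)).ofReal.add (t0.ofReal.mul_const I)
  have i (t : ℝ) : (s t + t * I : ℂ).im = t := by simp
  have l0 (t) (ht : t ∈ Ioo 0 (π / 2)) : Lp (om T) (s t + t * I) ≠ 0 := fun e => by
    simpa [e] using (hs t ht).2.1
  have y0 (t) (ht : t ∈ Ioo 0 (π / 2)) : ((Lp (om T) (s t + t * I))⁻¹).im < 0 := by
    rw [inv_im]
    exact div_neg_of_neg_of_pos (neg_lt_zero.2 (hs t ht).2.1) (normSq_pos.2 (l0 t ht))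
  have ex (t) (ht : t ∈ Ioo 0 (π / 2)) := h.expl ((i t).symm ▸ ht.1) ((i t).symm ▸ ht.2)
  have cξ : ContinuousOn (fun t => (s t : ℂ) + t * I) (Ioo 0 (π / 2)) := fun t ht =>
    (hs t ht).2.2.2.2.continuousAt.continuousWithinAt
  have cW : ContinuousOn (fun t => lg T b a e (s t + t * I)) (Ioo 0 (π / 2)) := fun t ht =>
    (hd_lg hT h.hb fun x _ => nmT ((i t).symm ▸ ht.1) ((i t).symm ▸ ht.2) x).continuousAt
      |>.comp_continuousWithinAt (cξ t ht)
  have cL : ContinuousOn (fun t => Lp (om T) (s t + t * I)) (Ioo 0 (π / 2)) := fun t ht =>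
    (an_Lp (hom hT) (nmS ht)).continuousAt.comp_continuousWithinAt
      (f := fun t => (s t : ℂ) + t * I) (cξ t ht)
  have dP (x : ℝ) (hx : x ∈ Ioo 0 (2 * T)) := reCLM.hasFDerivAt.comp_hasDerivAt x
    (h.curve (hasDerivAt_id' (x : ℂ)).comp_ofReal (nmP hx.1 hx.2))
  have cP : ContinuousOn (fun x : ℝ => (P x).re) (Ioo 0 (2 * T)) := fun x hx =>
    (dP x hx).continuousAt.continuousWithinAt
  have rP (x : ℝ) (hx : x ∈ Ioo 0 (2 * T)) : P x = (P x).re :=
    (conj_eq_iff_re.1 (by rw [← h.P_conj (nmP hx.1 hx.2), conj_ofReal])).symm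
  have mb : b ∈ Ioo 0 (2 * T) := ⟨h.hb, by linarith [h.hT]⟩
  have q : π / 2 / 2 ∈ Ioo 0 (π / 2) := ⟨by linarith, by linarith⟩
  have k := hopf (L := π / 2) (x₀ := (P b).re) (c := fun t => P (s t + t * I))
    (ρ := fun t => -Real.cosh (lg T b a e (s t + t * I) - lg T b a e T).re /
      ((Lp (om T) (s t + t * I))⁻¹).im) (θ := fun t => (lg T b a e (s t + t * I)).im - π)
    (half_pos p) (fun t ht => (h.curve (hs t ht).2.2.2.2 (nmS ht)).congr_deriv ?_)
    (fun t ht => div_pos_of_neg_of_neg (neg_lt_zero.2 (Real.cosh_pos _)) (y0 t ht))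
    ((Real.continuous_cosh.comp_continuousOn (continuous_re.comp_continuousOn
      (cW.sub continuousOn_const))).neg.div (continuous_im.comp_continuousOn (cL.inv₀ l0))
        fun t ht => (y0 t ht).ne) ((continuous_im.comp_continuousOn cW).sub continuousOn_const)
    (fun t ht u hu e => ?_) (fun t ht e => ?_) (fun t ht => ?_)
    (rP b mb ▸ (h.der _ (nmP mb.1 mb.2)).continuousAt.tendsto.comp h3) ?_
    ((h.lg_near h1 (fun t ht => (hs t ht).1) h3).mono fun t ht =>
      ⟨by linarith [ht.1], by linarith [ht.2]⟩)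
  · have e1 : (s (π / 2 / 2) : ℂ) + (π / 2 / 2 : ℝ) * I = om T / 2 := by
      have := (hs _ q).2.2.2.1
      rw [sub_half] at this
      rw [show s (π / 2 / 2) = T / 2 by linarith, om]; push_cast; ring
    have e2 := (hs _ q).1
    simp only [e1, lg, int_half hT] at k e2
    have e4 : e = 4 := mul_right_cancel₀ p.ne' (by simp [e2] at k; linarith)
    have e3 := ex _ q
    rw [← h.per _ two_mem _ (nmS q), h.expl (by simpa using p) (by simp; linarith),
      Lp_add (hom hT) two_mem (nmS q), lg_two hT ((i _).symm ▸ q.1) ((i _).symm ▸ q.2),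
      mul_right_inj' (l0 _ q), add_sub_right_comm, exp_add, mul_eq_left₀ (exp_ne_zero _),
      ← ofReal_exp, ofReal_eq_one, Real.exp_eq_one_iff, e4] at e3
    exact ⟨by linarith, e4⟩
  · have m := h.mul _ (nmS (s := s t) ht)
    have y := ofReal_ne_zero.2 (y0 t ht).ne
    have l := l0 t ht
    rw [ex t ht] at m ⊢
    have w : (lg T b a e (s t + t * I)).im = (lg T b a e (s t + t * I) - lg T b a e T).im := by
      rw [sub_im, lg_im, sub_zero]
    rw [w]
    generalize lg T b a e (s t + t * I) - lg T b a e T = W at *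
    generalize ((Lp (om T) (s t + t * I))⁻¹).im = v at *
    generalize Lp (om T) (s t + t * I) = L at *
    rw [show f (-(s t + t * I)) * (L * v)⁻¹ = exp (-W) / v by
      rw [exp_neg]; field_simp; exact mul_left_cancel₀ l (by linear_combination m),
      ofReal_sub, sub_mul, exp_sub_pi_mul_I, map_div₀, conj_ofReal, ← exp_conj,
      show conj (-W) = -W.re + W.im * I by simp [Complex.ext_iff]]
    simp only [exp_add, ofReal_div, ofReal_neg, ofReal_cosh, cosh,
      show exp W = exp W.re * exp (W.im * I) by rw [← exp_add, re_add_im]]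
    field_simp
  · by_contra H
    exact nmA (by simp [abs_lt]; constructor <;> linarith [ht.1, ht.2, hu.1, hu.2])
      (fun e => H (by simpa [sub_eq_zero] using congrArg im e)) (by
        simp [abs_lt]
        constructor <;> linarith [(hs t ht).2.2.1.1, (hs t ht).2.2.1.2, (hs u hu).2.2.1.1,
          (hs u hu).2.2.1.2]) (h.inj _ (nmS ht) _ (nmS hu) e ((hs t ht).1.trans (hs u hu).1.symm))
  · obtain ⟨x, x1, x2⟩ := ((h.prop.eventually_ge_atTop |(P (s t + t * I)).re|).and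
      (Ioo_mem_nhdsGT hT)).exists
    have mx : x ∈ Ioo 0 (2 * T) := ⟨x2.1, by linarith [x2.2]⟩
    have e2 : P (2 * T - x : ℝ) = -P x := by
      rw [← h.Pneg _ (nmP mx.1 mx.2), conj_ofReal,
        ← h.Pper _ two_mem _ (mt neg_mem_iff.1 (nmP mx.1 mx.2))]
      congr 1; push_cast; ring
    have sb := ordConnected_Ioo.uIcc_subset mx (y := 2 * T - x) ⟨by linarith [mx.2], by linarith [mx.1]⟩
    obtain ⟨y, y1, y2⟩ := intermediate_value_uIcc (cP.mono sb) (show (P (s t + t * I)).re ∈ _ by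
      rw [rP x mx, norm_real, Real.norm_eq_abs] at x1
      simp only [e2, neg_re, mem_uIcc]
      rcases abs_cases (P x).re with H | H <;> rw [H.1, abs_le] at x1
      exacts [.inr x1, .inl (by simpa using x1)])
    exact nmB (by simpa using ht.1) (by simpa using ht.2) (h.inj _ (nmS ht) _ (nmP (sb y1).1 (sb y1).2)
      (by rw [rP y (sb y1)]; exact Complex.ext y2.symm e) ((hs t ht).1.trans (La_im y).symm))
  · rw [← h.P_conj (nmS ht), ← h.Pneg _ (conj_nm (nmS ht)), conj_conj,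
      ← h.Pper _ om_mem _ (mt neg_mem_iff.1 (nmS ht)), (hs t ht).2.2.2.1, om]
    congr 1; push_cast; ring
  · simpa [h.P_T] using strictMonoOn_of_hasDerivWithinAt_pos (convex_Ioo 0 (2 * T)) cP
      (fun x hx => (dP x (interior_subset hx)).hasDerivWithinAt) (fun x hx => by
        have hx := interior_subset hx
        simpa using (h.amgm hx.1 hx.2).1) mb ⟨hT, by linarith⟩ h.hT

end Pool.Agent.MP_c434f6_gt
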