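import Pool.Agent.MP_c434f6_gt.Rhomb

/-! Long tori are excluded by a direct estimate. -/

open Complex Filter Topology Set
open scoped Real ComplexConjugate

namespace Pool.Agent.MP_c434f6_gt

lemma ts_le {F : ℂ → ℂ} {Q u : ℂ} {C : ℝ} (hC : 0 ≤ C) (hQ : ‖Q‖ ≤ 0.001) (hu : ‖u‖ ≤ 0.04)
    (h : ∀ w, ‖w‖ ≤ 0.04 → ‖F w‖ ≤ C * ‖w‖) : ‖∑' n : ℕ, F (Q ^ n * u)‖ ≤ C * 1.002 * ‖u‖ := by
  refine (tsum_of_norm_bounded ((hasSum_geometric_of_lt_one (r := 0.001) (by norm_num)
    (by norm_num)).mul_left (C * ‖u‖)) fun n => (h _ ((norm_pm (by linarith) n u).trans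
      hu)).trans ?_).trans (by nlinarith [mul_nonneg hC (norm_nonneg u)])
  rw [norm_mul, norm_pow, mul_comm (_ ^ n), ← mul_assoc]
  gcongr

lemma fr_le {Q u : ℂ} {r : ℝ} (hQ : ‖Q‖ ≤ 0.001) (hu : ‖u‖ ≤ r) (h : r ≤ 0.04) :
    ‖fr Q u‖ ≤ 2.1 * r :=
  (ts_le (by norm_num) hQ (hu.trans h) fun _ hw => norm_rr hw (by norm_num)).trans
    (by nlinarith [norm_nonneg u])

lemma fs_le {Q u : ℂ} {r : ℝ} (hQ : ‖Q‖ ≤ 0.001) (hu : ‖u‖ ≤ r) (h : r ≤ 0.04) :
    ‖fs Q u‖ ≤ 4.4 * r :=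
  (ts_le (by norm_num) hQ (hu.trans h) fun _ hw => norm_ss hw (by norm_num)).trans
    (by nlinarith [norm_nonneg u])

lemma an_fre {Q c k ξ : ℂ} (hQ : ‖Q‖ < 1) (h : ‖c * exp (k * ξ)‖ < 1) :
    AnalyticAt ℂ (fun z => fr Q (c * exp (k * z))) ξ := by
  have a : ContinuousAt (fun z => ‖c * exp (k * z)‖) ξ := by fun_prop
  refine analyticAt_iff_eventually_differentiableAt.2 ((a.eventually_lt continuousAt_const h).mono
    fun z hz => (hd_fre hQ _ k z fun n e => ?_).differentiableAt)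
  exact absurd (e ▸ norm_pm hQ.le n _) (by simpa using hz)

/-- The regular part of `La` near `om T`. -/
noncomputable def EE (T : ℝ) (ζ : ℂ) : ℂ := fr (exp (-2 * om T)) (1 * exp (-2 * ζ)) -
  fr (exp (-2 * om T)) (exp (-4 * T) * exp (2 * ζ))

noncomputable def NN (T b : ℝ) (ξ : ℂ) : ℂ := ((1 + exp (2 * (ξ - b - T))) / (1 + exp (2 * (ξ - T)))) ^ 2 *
  exp (-2 * (∫ s in -b..0, EE T (ξ + s)) - (2 * T - 2 * b : ℝ) * La (om T) ξ + 4 * ξ)

variable {T b : ℝ} {ξ : ℂ}

lemma nE1 (ζ : ℂ) : ‖1 * exp (-2 * ζ)‖ = Real.exp (-2 * ζ.re) := by simp [norm_exp]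

lemma nE2 (T : ℝ) (ζ : ℂ) : ‖exp (-4 * T) * exp (2 * ζ)‖ = Real.exp (2 * ζ.re - 4 * T) := by
  rw [← exp_add, norm_exp]; congr 1; simp; ring

lemma an_EE (h1 : 0 < ξ.re) (h2 : ξ.re < 2 * T) : AnalyticAt ℂ (EE T) ξ :=
  (an_fre (nQ (hom (by linarith))) (by rw [nE1, Real.exp_lt_one_iff]; linarith)).sub
    (an_fre (nQ (hom (by linarith))) (by rw [nE2, Real.exp_lt_one_iff]; linarith))

lemma La_EE (hT : 0 < T) (ξ : ℂ) :
    La (om T) ξ = 1 + 2 * exp (2 * (ξ - T)) / (1 + exp (2 * (ξ - T))) + EE T ξ := by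
  have a : exp (-2 * om T) * exp (2 * ξ) = -exp (2 * (ξ - T)) := by
    rw [Q_om, ofReal_exp, neg_mul, ← exp_add]; congr 2; push_cast; ring
  have b : exp (-2 * om T) * exp (-2 * om T) = exp (-4 * T) := by
    rw [Q_om, ofReal_exp, neg_mul_neg, ← exp_add]; congr 1; push_cast; ring
  rw [La, EE, fr_eq (nQ (hom hT)) (_ * _), ← mul_assoc, b, a, rr, one_mul, sub_neg_eq_add]
  ring

lemma den_ne (h : ξ ∉ Lat (om T)) : 1 + exp (2 * (ξ - T)) ≠ 0 := fun e => exp_ne h 1 (by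
  rw [show 2 * (ξ - (1 : ℤ) * om T) = 2 * (ξ - T) - π * I by rw [om]; push_cast; ring,
    exp_sub_pi_mul_I]
  linear_combination -e)

lemma hd_NN (hb : 0 < b) (h1 : b < ξ.re) (h2 : ξ.re < 2 * T) (h : ξ ∉ Lat (om T)) :
    ∃ d, HasDerivAt (NN T b) d ξ ∧ (ξ - b ∉ Lat (om T) → d = (2 * La (om T) (ξ - b) -
      2 * La (om T) ξ - (2 * T - 2 * b : ℝ) * Lp (om T) ξ + (4 : ℝ)) * NN T b ξ) := by
  have hT : 0 < T := by linarith
  have n := den_ne h
  have e (c : ℂ) : HasDerivAt (fun ξ => 1 + exp (2 * (ξ - c))) (exp (2 * (ξ - c)) * (2 * 1)) ξ :=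
    (((hasDerivAt_id' ξ).sub_const c).const_mul 2).cexp.const_add 1
  have i := hd_int (g := EE T) (α := -b) (β := 0) (ξ := ξ) fun s hs => by
    rw [uIcc_of_le (by linarith)] at hs
    exact an_EE (by simp; linarith [hs.1]) (by simp; linarith [hs.2])
  refine ⟨_, ((((by simpa only [sub_add_eq_sub_sub] using e (b + T) : HasDerivAt _ _ ξ).fun_div
    (e T) n).fun_pow 2).fun_mul (((i.const_mul _).fun_sub ((hd_La (hom hT) h).const_mul _)).fun_add
      ((hasDerivAt_id' ξ).const_mul 4)).cexp), fun hb => ?_⟩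
  have n' := den_ne hb
  rw [NN, La_EE hT ξ, La_EE hT (ξ - b), ofReal_neg, ← sub_eq_add_neg, ofReal_zero, add_zero]
  generalize exp (2 * (ξ - T)) = u at *
  generalize exp (2 * (ξ - b - T)) = v at *
  simp only [Nat.cast_ofNat, Nat.add_one_sub_one, pow_one, ofReal_ofNat]
  field_simp
  ring

lemma int_EE (hQ : ‖exp (-2 * om T)‖ ≤ 0.001) (hb : 0 < b) {r₁ r₂ : ℝ}
    (h1 : Real.exp (2 * b - 2 * ξ.re) ≤ r₁) (h2 : Real.exp (2 * ξ.re - 4 * T) ≤ r₂)
    (h3 : r₁ ≤ 0.04) (h4 : r₂ ≤ 0.04) : ‖∫ s in -b..0, EE T (ξ + s)‖ ≤ 1.05 * (r₁ + r₂) := by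
  have d (s : ℝ) : HasDerivAt (fun s => 1.05 * (Real.exp (2 * (ξ.re + s) - 4 * T) -
      Real.exp (-2 * (ξ.re + s)))) (2.1 * Real.exp (-2 * (ξ.re + s)) +
        2.1 * Real.exp (2 * (ξ.re + s) - 4 * T)) s :=
    ((((((hasDerivAt_id' s).const_add _).const_mul 2).sub_const _).exp.fun_sub
      (((hasDerivAt_id' s).const_add _).const_mul (-2)).exp).const_mul _).congr_deriv (by ring)
  refine (intervalIntegral.norm_integral_le_of_norm_le (by linarith) (.of_forall fun s hs => ?_)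
    (Continuous.intervalIntegrable (u := fun s => 2.1 * Real.exp (-2 * (ξ.re + s)) +
      2.1 * Real.exp (2 * (ξ.re + s) - 4 * T)) (by fun_prop) _ _)).trans ?_
  · exact norm_sub_le_of_le (fr_le hQ (by rw [nE1]; simp) ((Real.exp_le_exp.2
      (by linarith [hs.1])).trans (h1.trans h3))) (fr_le hQ (by rw [nE2]; simp)
        ((Real.exp_le_exp.2 (by linarith [hs.2])).trans (h2.trans h4)))
  · rw [intervalIntegral.integral_eq_sub_of_hasDerivAt (fun s _ => d s)
      (Continuous.intervalIntegrable (by fun_prop) _ _), add_zero,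
      show -2 * (ξ.re + -b) = 2 * b - 2 * ξ.re by ring]
    linarith [Real.exp_pos (-2 * ξ.re), Real.exp_pos (2 * (ξ.re + -b) - 4 * T)]

variable {f P : ℂ → ℂ}

lemma Surf.f_NN (h : Surf T b (2 * T - 2 * b) 4 f P) (h1 : T < ξ.re) (h2 : ξ.re < 2 * T) :
    f ξ * NN T b T = Lp (om T) T * NN T b ξ := by
  have hT := h.pos
  have c (x y : ℝ) : Convex ℝ {z : ℂ | x < z.re ∧ z.re < y} :=
    (convex_halfSpace_re_gt _).inter (convex_halfSpace_re_lt _)
  have o (x y : ℝ) : IsOpen {z : ℂ | x < z.re ∧ z.re < y} :=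
    (isOpen_lt continuous_const continuous_re).inter (isOpen_lt continuous_re continuous_const)
  have o' := (o b (2 * T)).inter (isOpen_lt (continuous_abs.comp continuous_im)
    (continuous_const (y := π / 2)))
  have p := half_pos Real.pi_pos
  have n (z : ℂ) (hz : z ∈ {z : ℂ | b < z.re ∧ z.re < 2 * T} ∩ {z | |z.im| < π / 2} ∪
      {z : ℂ | T < z.re ∧ z.re < 2 * T}) : b < z.re ∧ z.re < 2 * T ∧ z ∉ Lat (om T) := by
    rcases hz with ⟨⟨a1, a2⟩, a3⟩ | ⟨a1, a2⟩
    · have := h.hb.trans a1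
      exact ⟨a1, a2, nmA a3 (fun e => by simp [e] at this) (by rwa [abs_of_pos this])⟩
    · refine ⟨h.hT.trans a1, a2, fun e => ?_⟩
      obtain ⟨m, -, e, -⟩ := mem_om e
      rw [e] at a1 a2
      have : (1 : ℤ) < m := by exact_mod_cast (lt_mul_iff_one_lt_left hT).1 a1
      have : m < 2 := by exact_mod_cast lt_of_mul_lt_mul_right a2 hT.le
      omega
  have m : (T : ℂ) ∈ {z : ℂ | b < z.re ∧ z.re < 2 * T} ∩ {z | |z.im| < π / 2} :=
    ⟨⟨h.hT, by simp [hT]⟩, by simpa using p⟩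
  choose d d1 d2 using fun z hz => hd_NN h.hb (n z hz).1 (n z hz).2.1 (n z hz).2.2
  rw [← h.fT]
  refine ode_eq (o'.union (o T (2 * T))) (IsPreconnected.union ((3 * T / 2 : ℝ) : ℂ)
    (mem_inter ⟨by simp; linarith [h.hT], by simp; linarith⟩ (by simpa using p))
    (by constructor <;> simp <;> linarith) ((c _ _).inter ?_).isPreconnected (c _ _).isPreconnected)
    (h.hol.mono fun z hz => (n z hz).2.2)
    (fun z hz => (d1 z hz).differentiableAt.differentiableWithinAt) (.inl m)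
    (mul_ne_zero (pow_ne_zero _ (div_ne_zero (den_ne ?_) (den_ne (n _ (.inl m)).2.2)))
      (exp_ne_zero _)) ?_ (.inr ⟨h1, h2⟩)
  · simp only [Function.comp, abs_lt]
    exact (convex_halfSpace_im_gt (-(π / 2))).inter (convex_halfSpace_im_lt (π / 2))
  · exact_mod_cast nmP (sub_pos.2 h.hT) (by linarith [h.hb])
  · filter_upwards [nhdsWithin_le_nhds (o'.mem_nhds m), ev_nm (hom hT) T b] with z a1 a2
    rw [(d1 z (.inl a1)).deriv, d2 z _ a2, h.ode z (n z (.inl a1)).2.2 a2]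
    ring

theorem Surf.big (h : Surf T b (2 * T - 2 * b) 4 f P) : T < 3.5 := by
  by_contra! hT
  have T0 := h.pos
  obtain ⟨ε, hε⟩ : ∃ ε, ε = Real.exp (-T) := ⟨_, rfl⟩
  have e0 : 0 < ε := hε ▸ Real.exp_pos _
  have e1 : T * ε ≤ 0.1057 := by
    have a := Real.sum_le_exp_of_nonneg (x := 3.5) (by norm_num) 14
    have b := Real.add_one_le_exp (T - 3.5)
    norm_num [Finset.sum_range_succ, Nat.factorial] at a
    rw [hε, Real.exp_neg, mul_inv_le_iff₀ (Real.exp_pos _),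
      show T = 7 / 2 + (T - 3.5) by ring, Real.exp_add]
    nlinarith
  have e2 : ε ≤ 0.0302 := by nlinarith
  have ex (k : ℕ) {x : ℝ} (hx : x = -(k * T)) : Real.exp x = ε ^ k := by
    rw [hx, hε, ← Real.exp_nat_mul]; ring_nf
  have Q : exp (-2 * om T) = -(ε ^ 2 : ℝ) := by rw [Q_om, ex 2 (by push_cast; ring)]
  have hQ : ‖exp (-2 * om T)‖ ≤ 0.001 := by
    rw [Q, norm_neg, norm_real, Real.norm_of_nonneg (by positivity)]; nlinarith
  have q := nQ (hom T0)
  obtain ⟨B, hB⟩ : ∃ B, B = Real.exp (2 * b - T) := ⟨_, rfl⟩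
  have B1 : 1 ≤ B := hB ▸ Real.one_le_exp (by linarith [h.half])
  have B2 : B ≤ 1.2 := by
    have l := Real.log_le_sub_one_of_pos (x := 1.2) (by norm_num)
    have l0 := Real.log_pos (x := 1.2) (by norm_num)
    have a : exp (-2 * ((T + Real.log 1.2) / 2 : ℝ)) = (5 / 6 * ε : ℝ) := by
      rw [show 5 / 6 * ε = ε / 1.2 by ring, hε, ← Real.exp_log (x := 1.2) (by norm_num),
        ← Real.exp_sub, Real.log_exp, ofReal_exp]
      congr 1; push_cast; ring
    have c : exp (-2 * om T) * exp (2 * ((T + Real.log 1.2) / 2 : ℝ)) = (-(1.2 * ε) : ℝ) := by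
      rw [Q_om, hε, ← Real.exp_log (x := 1.2) (by norm_num), ← Real.exp_add, Real.log_exp,
        ofReal_neg, ofReal_exp, ofReal_exp, neg_mul, ← exp_add]
      congr 2; push_cast; ring
    have := ((Lp_mono T0).lt_iff_lt ⟨h.hb, h.hT.le⟩ (b := (T + Real.log 1.2) / 2)
      ⟨by positivity, by linarith⟩).1 (by
        have a1 := (re_le_norm _).trans (fs_le hQ (u := (5 / 6 * ε : ℝ)) (r := 5 / 6 * ε)
          (by rw [norm_real, Real.norm_of_nonneg (by positivity)]) (by linarith))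
        have a2 := (re_le_norm _).trans (fs_le hQ (u := exp (-2 * om T) * (-(1.2 * ε) : ℝ))
          (norm_mul_le_of_le hQ (by rw [norm_real, norm_neg, Real.norm_of_nonneg (by positivity)]))
          (by linarith))
        have a3 : 4 * -(1.2 * ε) / (1 - -(1.2 * ε)) ^ 2 ≤ -(4.4 * ε) := by
          rw [sub_neg_eq_add, div_le_iff₀ (by positivity)]; nlinarith
        simp only [h.zero, zero_re]
        rw [Lp, a, c, fs_eq q (-(1.2 * ε) : ℝ), show ss (-(1.2 * ε) : ℝ) =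
          (4 * -(1.2 * ε) / (1 - -(1.2 * ε)) ^ 2 : ℝ) by rw [ss]; norm_cast]
        simp only [sub_re, neg_re, add_re, ofReal_re]
        linarith)
    rw [hB, ← Real.exp_log (x := 1.2) (by norm_num)]
    exact Real.exp_le_exp.2 (by linarith)
  have eB (k : ℕ) {x : ℝ} (hx : x = 2 * b - T - k * T) : Real.exp x = B * ε ^ k := by
    rw [hB, ← ex k rfl, ← Real.exp_add, hx, sub_eq_add_neg]
  have nm (t : ℝ) : ((3 * T / 2 : ℝ) : ℂ) + t * I ∉ Lat (om T) := fun e => by
    obtain ⟨m, -, e, -⟩ := mem_om e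
    have : (3 : ℝ) = 2 * m := mul_right_cancel₀ T0.ne' (by simp at e; linarith)
    have : (3 : ℤ) = 2 * m := by exact_mod_cast this
    omega
  have bd (t : ℝ) : ‖f ((3 * T / 2 : ℝ) + t * I)‖ ≤ 1 := by
    obtain ⟨ξ, hξ⟩ : ∃ ξ : ℂ, ξ = (3 * T / 2 : ℝ) + t * I := ⟨_, rfl⟩
    have r : ξ.re = 3 * T / 2 := by simp [hξ, -ofReal_div]
    rw [← hξ]
    have k := congrArg norm (h.f_NN (ξ := ξ) (by linarith) (by linarith))
    have i1 := int_EE hQ h.hb (ξ := ξ) (eB 2 (by push_cast; linarith)).le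
      (ex 1 (by push_cast; linarith)).le (by nlinarith) (by nlinarith)
    have i2 := int_EE hQ h.hb (ξ := T) (eB 1 (by simp; ring)).le
      (ex 2 (by simp; ring)).le (by nlinarith) (by nlinarith)
    have w : ε⁻¹ - 1 ≤ ‖1 + exp (2 * (ξ - T))‖ := by
      have := norm_sub_norm_le (exp (2 * (ξ - T))) (-1)
      rw [norm_exp, show (2 * (ξ - T)).re = - -T by simp [r]; ring, Real.exp_neg, ← hε] at this
      simpa [add_comm] using this
    have w0 : 0 < ε⁻¹ - 1 := sub_pos.2 ((one_lt_inv₀ e0).2 (by linarith))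
    have wb : ‖1 + exp (2 * (ξ - b - T))‖ ≤ 1 + B⁻¹ := (norm_add_le _ _).trans_eq (by
      rw [norm_exp, hB, ← Real.exp_neg, norm_one]; congr 2; simp [r]; ring)
    have la : 3 - 4.2 * ε ≤ (La (om T) ξ).re := by
      have n := den_ne (hξ ▸ nm t)
      have a1 : ‖2 / (1 + exp (2 * (ξ - T)))‖ ≤ 2.07 * ε := by
        rw [norm_div, Complex.norm_two, div_le_iff₀ (w0.trans_le w)]
        nlinarith [mul_inv_cancel₀ e0.ne']
      have a2 : ‖EE T ξ‖ ≤ _ := norm_sub_le_of_le (fr_le hQ ((nE1 _).trans (ex 3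
        (by push_cast; linarith))).le (by nlinarith [pow_pos e0 2])) (fr_le hQ ((nE2 _ _).trans
          (ex 1 (by push_cast; linarith))).le (by linarith))
      rw [La_EE T0, show 1 + 2 * exp (2 * (ξ - T)) / (1 + exp (2 * (ξ - T))) =
        3 - 2 / (1 + exp (2 * (ξ - T))) by field_simp; ring, add_re, sub_re]
      have := (abs_le.1 ((abs_re_le_norm _).trans a2)).1
      have : (3 : ℂ).re = 3 := by simp
      nlinarith [re_le_norm (2 / (1 + exp (2 * (ξ - T)))), pow_pos e0 2]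
    have lp : ‖Lp (om T) T‖ ≤ 1.01 := by
      have a : exp (-2 * (T : ℂ)) = (ε ^ 2 : ℝ) := by
        rw [← ex 2 (x := -2 * T) (by push_cast; ring)]; simp
      have c : exp (-2 * om T) * exp (2 * T) = -1 := by
        rw [Q_om, ofReal_exp, neg_mul, ← exp_add]; simp
      have a1 := fs_le hQ (u := exp (-2 * om T) * -1) (r := 0.001) (by simpa using hQ) (by norm_num)
      rw [Lp, c, fs_eq q (-1), a, show (ε ^ 2 : ℝ) = exp (-2 * om T) * -1 by rw [Q]; ring,
        show ss (-1) = -1 by norm_num [ss]]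
      refine (norm_sub_le_of_le ((norm_neg _).trans_le a1) (norm_add_le_of_le (by simp : _ ≤ (1 : ℝ))
        a1)).trans (by norm_num)
    have x6 : Real.exp 0.6 ≤ 1.89 := by
      rw [show (0.6 : ℝ) = (6 : ℕ) * 0.1 by norm_num, Real.exp_nat_mul]
      exact (pow_le_pow_left₀ (Real.exp_pos _).le (Real.exp_bound_div_one_sub_of_interval
        (by norm_num) (by norm_num)) 6).trans (by norm_num)
    obtain ⟨y, hy⟩ : ∃ y, y = (-2 * (∫ s in -b..0, EE T (T + s)) - (2 * T - 2 * b : ℝ) *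
      La (om T) T + 4 * T).re := ⟨_, rfl⟩
    have n1 : 1 / 4 * Real.exp y ≤ ‖NN T b T‖ := by
      rw [NN, norm_mul, norm_exp, ← hy, norm_pow, norm_div, sub_self, mul_zero, exp_zero,
        one_add_one_eq_two, Complex.norm_two]
      have : 1 ≤ ‖1 + exp (2 * ((T : ℂ) - b - T))‖ := le_trans (by
        norm_cast; simp [(Real.exp_pos _).le]) (re_le_norm _)
      gcongr
      nlinarith
    have n2 : ‖NN T b ξ‖ ≤ ((1 + B⁻¹) / (ε⁻¹ - 1)) ^ 2 * (Real.exp y * (B * ε⁻¹ * 1.89)) := by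
      rw [NN, norm_mul, norm_exp, norm_pow, norm_div]
      gcongr
      refine le_trans ?_ (mul_le_mul_of_nonneg_left (mul_le_mul_of_nonneg_left x6
        (by positivity)) (Real.exp_pos _).le)
      rw [hB, hε, ← Real.exp_neg, ← Real.exp_add, ← Real.exp_add, ← Real.exp_add,
        Real.exp_le_exp, hy, La_T T0]
      have a1 := abs_le.1 ((abs_re_le_norm _).trans i1)
      have a2 := abs_le.1 ((abs_re_le_norm _).trans i2)
      simp only [add_re, sub_re, neg_mul, neg_re, re_ofNat, ofReal_re, r, mul_re,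
        im_ofNat, zero_mul, sub_zero, ofReal_im]
      nlinarith [mul_le_mul_of_nonneg_left la (sub_pos.2 h.hT).le, h.half]
    rw [norm_mul, norm_mul] at k
    refine le_of_mul_le_mul_right ?_ (show 0 < 1 / 4 * Real.exp y by positivity)
    refine (mul_le_mul_of_nonneg_left n1 (norm_nonneg _)).trans (k.trans_le ((mul_le_mul lp n2
      (norm_nonneg _) (by norm_num)).trans ?_))
    have : 0 < 1 - ε := by linarith
    rw [show ((1 + B⁻¹) / (ε⁻¹ - 1)) ^ 2 * (Real.exp y * (B * ε⁻¹ * 1.89)) =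
      (B + 2 + B⁻¹) * (ε / (1 - ε) ^ 2) * 1.89 * Real.exp y by field_simp; ring, one_mul,
      ← mul_assoc]
    have a1 : B + 2 + B⁻¹ ≤ 4.04 := by
      have : B⁻¹ ≤ 2.04 - B := by rw [inv_le_iff_one_le_mul₀ (by linarith)]; nlinarith
      linarith
    have a2 : ε / (1 - ε) ^ 2 ≤ 0.0322 := by rw [div_le_iff₀ (by positivity)]; nlinarith
    gcongr
    exact (mul_le_mul_of_nonneg_left (mul_le_mul_of_nonneg_right (mul_le_mul a1 a2 (by positivity)
      (by norm_num)) (by norm_num)) (by norm_num)).trans (by norm_num)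
  have v := norm_image_sub_le_of_norm_deriv_le_segment' (a := 0) (b := π / 2) (C := 1)
    (f := fun t : ℝ => P ((3 * T / 2 : ℝ) + t * I)) (fun t _ => (h.curve (((hasDerivAt_id
      (t : ℂ)).comp_ofReal.mul_const I).const_add _) (nm t)).hasDerivWithinAt) (fun t _ => by
      have := bd (π / 2 - t)
      rw [show ((3 * T / 2 : ℝ) : ℂ) + (π / 2 - t : ℝ) * I = -((3 * T / 2 : ℝ) + t * I) +
        (2 * T + om T) by rw [om]; push_cast; ring, h.per _ (add_mem two_mem om_mem) _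
          (mt neg_mem_iff.1 (nm t))] at this
      rw [norm_div, Complex.norm_two, div_le_one two_pos]
      exact (norm_add_le_of_le (by simpa using bd t) (by simpa using this)).trans
        one_add_one_eq_two.le) _
    ⟨by positivity, le_rfl⟩
  have n (x) (hx : x ∈ Icc (T / 2) (3 * T / 2)) := nmP (x := x) (T := T) (by linarith [hx.1])
    (by linarith [hx.2])
  have d (x) (hx : x ∈ Icc (T / 2) (3 * T / 2)) := (reCLM.hasFDerivAt.comp_hasDerivAt x
    (h.curve (hasDerivAt_id (x : ℂ)).comp_ofReal (n x hx))).sub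
      (hd_La (hom T0) (n x hx)).real_of_complex
  have m := monotoneOn_of_hasDerivWithinAt_nonneg (convex_Icc _ _)
    (fun x hx => (d x hx).continuousAt.continuousWithinAt)
    (fun x hx => (d x (interior_subset hx)).hasDerivWithinAt) (fun x hx => by
      have hx := interior_subset hx
      have := (h.amgm (x := x) (by linarith [hx.1]) (by linarith [hx.2])).2
      simp
      linarith) ⟨le_rfl, by linarith⟩ ⟨by linarith, le_rfl⟩ (by linarith)
  have n0 := n _ ⟨le_rfl, by linarith⟩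
  have l1 := La_two T0 (mt neg_mem_iff.1 n0)
  rw [La_neg (hom T0) n0, show -((T / 2 : ℝ) : ℂ) + 2 * T = (3 * T / 2 : ℝ) by push_cast; ring] at l1
  have l2 : (La (om T) (T / 2 : ℝ)).re ≤ 1 + (2.1 * ε + 2.1 * ε) := by
    rw [La, add_sub_assoc, add_re, one_re]
    refine add_le_add le_rfl ((re_le_norm _).trans (norm_sub_le_of_le (fr_le hQ ?_ (by linarith))
      (fr_le hQ ?_ (by linarith))))
    · rw [norm_exp, hε]; simp; linarith
    · rw [← exp_add, norm_exp, hε]; simp; linarith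
  simp only [ofReal_zero, zero_mul, add_zero, sub_zero, one_mul] at v
  rw [show ((3 * T / 2 : ℝ) : ℂ) + (π / 2 : ℝ) * I = (T / 2 : ℝ) + om T by
    rw [om]; push_cast; ring, h.Pper _ om_mem _ n0, norm_sub_rev] at v
  have := (re_le_norm _).trans v
  simp only [Pi.sub_apply, Function.comp, reCLM_apply, id, l1, add_re, neg_re, re_ofNat,
    sub_re] at m this
  linarith [Real.pi_lt_d2]

end Pool.Agent.MP_c434f6_gt
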