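import Mathlib

/-! Embedded minimal once-punctured tori of finite type with a helicoidal end. -/

open Complex Filter Topology

namespace Pool.Agent.MP_c434f6_gt

/-- `X` is a conformal minimal embedding of the torus `ℂ / Λ` punctured at `0`, with
Weierstrass data `φ = 2 ∂X / ∂z`; it is proper, not horizontal-flat, and the height differential
`dh = φ₃ dz` and `dg / g`, for the Gauss map `g = φ₃ / (φ₁ - i φ₂)`, have at most double poles at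
the puncture. -/
structure Hel (Λ : Set ℂ) (X : ℂ → EuclideanSpace ℝ (Fin 3)) (φ : Fin 3 → ℂ → ℂ) : Prop where
  hol : ∀ j, DifferentiableOn ℂ (φ j) Λᶜ
  der : ∀ j, ∀ z ∉ Λ, HasFDerivAt (fun w => X w j) (reCLM.comp (φ j z • (1 : ℂ →L[ℝ] ℂ))) z
  conf : ∀ z ∉ Λ, φ 0 z ^ 2 + φ 1 z ^ 2 + φ 2 z ^ 2 = 0
  imm : ∀ z ∉ Λ, ∃ j, φ j z ≠ 0
  emb : ∀ z ∉ Λ, ∀ w ∉ Λ, X z = X w ↔ z - w ∈ Λ
  proper : Tendsto (fun z => ‖X z‖) (𝓝[≠] 0) atTop
  nonflat : ∃ z ∉ Λ, φ 2 z ≠ 0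
  dh : φ 2 =O[𝓝[≠] 0] fun z => (z ^ 2)⁻¹
  dg : logDeriv (fun z => φ 2 z / (φ 0 z - I * φ 1 z)) =O[𝓝[≠] 0] fun z => (z ^ 2)⁻¹

/-- The rotation by `π` about the vertical line through `(c₁, c₂, 0)`. -/
noncomputable def rot (c₁ c₂ : ℝ) (p : EuclideanSpace ℝ (Fin 3)) : EuclideanSpace ℝ (Fin 3) :=
  !₂[2 * c₁ - p 0, 2 * c₂ - p 1, p 2]

/-- `M` is an embedded genus-one helicoid of finite type that is invariant under the rotation by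
`π` about some vertical line. -/
def SymHel (M : Set (EuclideanSpace ℝ (Fin 3))) : Prop :=
  (∃ (L : PeriodPair) (X : ℂ → EuclideanSpace ℝ (Fin 3)) (φ : Fin 3 → ℂ → ℂ),
    Hel L.lattice X φ ∧ M = X '' (L.lattice : Set ℂ)ᶜ) ∧ ∃ c₁ c₂, ∀ p ∈ M, rot c₁ c₂ p ∈ M

end Pool.Agent.MP_c434f6_gt
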