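import Mathlib

/-! A zeta function for the lattice generated by `ω` and `π i`, Liouville's theorem for elliptic
functions and the degree of the derivative. -/

open Complex Filter Topology
open scoped Real

namespace Pool.Agent.MP_c434f6_gt

noncomputable def rr (w : ℂ) : ℂ := 2 * w / (1 - w)
noncomputable def ss (w : ℂ) : ℂ := 4 * w / (1 - w) ^ 2
noncomputable def fr (Q u : ℂ) : ℂ := ∑' n : ℕ, rr (Q ^ n * u)
noncomputable def fs (Q u : ℂ) : ℂ := ∑' n : ℕ, ss (Q ^ n * u)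
noncomputable def fd (Q u : ℂ) : ℂ := ∑' n : ℕ, 2 * Q ^ n / (1 - Q ^ n * u) ^ 2

/-- The zeta function. -/
noncomputable def La (ω ξ : ℂ) : ℂ :=
  1 + fr (exp (-2 * ω)) (exp (-2 * ξ)) - fr (exp (-2 * ω)) (exp (-2 * ω) * exp (2 * ξ))

/-- Its derivative. -/
noncomputable def Lp (ω ξ : ℂ) : ℂ :=
  -fs (exp (-2 * ω)) (exp (-2 * ξ)) - fs (exp (-2 * ω)) (exp (-2 * ω) * exp (2 * ξ))

/-- The lattice. -/
def Lat (ω : ℂ) : AddSubgroup ℂ := AddSubgroup.closure {ω, π * I}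

lemma le_norm_one_sub (w : ℂ) : 1 - ‖w‖ ≤ ‖1 - w‖ := by simpa using norm_sub_norm_le 1 w

lemma norm_rr {w : ℂ} {ρ : ℝ} (h : ‖w‖ ≤ ρ) (h1 : ρ < 1) : ‖rr w‖ ≤ 2 / (1 - ρ) * ‖w‖ := by
  rw [rr, norm_div, norm_mul, Complex.norm_two, div_mul_eq_mul_div]
  exact div_le_div_of_nonneg_left (by positivity) (by linarith)
    (by linarith [le_norm_one_sub w])

lemma norm_ss {w : ℂ} {ρ : ℝ} (h : ‖w‖ ≤ ρ) (h1 : ρ < 1) : ‖ss w‖ ≤ 4 / (1 - ρ) ^ 2 * ‖w‖ := by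
  rw [ss, norm_div, norm_mul, norm_pow, Complex.norm_ofNat, div_mul_eq_mul_div]
  have : 0 < 1 - ρ := by linarith
  gcongr
  linarith [le_norm_one_sub w]

variable {Q u : ℂ}

lemma norm_pm (hQ : ‖Q‖ ≤ 1) (n : ℕ) (u : ℂ) : ‖Q ^ n * u‖ ≤ ‖u‖ := by
  rw [norm_mul, norm_pow]
  exact mul_le_of_le_one_left (norm_nonneg _) (pow_le_one₀ (norm_nonneg _) hQ)

lemma ev_small (hQ : ‖Q‖ < 1) (u : ℂ) : ∀ᶠ n : ℕ in atTop, ‖Q ^ n * u‖ < 1 / 2 := by
  have := ((tendsto_pow_atTop_nhds_zero_of_norm_lt_one hQ).mul_const u).norm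
  exact this.eventually_lt_const (by simp)

lemma sm_of (hQ : ‖Q‖ < 1) (u : ℂ) {F : ℕ → ℂ} {C : ℝ}
    (h : ∀ n, ‖Q ^ n * u‖ < 1 / 2 → ‖F n‖ ≤ C * ‖Q‖ ^ n) : Summable F :=
  .of_norm_bounded_eventually_nat ((summable_geometric_of_lt_one (norm_nonneg _) hQ).mul_left C)
    ((ev_small hQ u).mono h)

lemma sm_rr (hQ : ‖Q‖ < 1) (u : ℂ) : Summable fun n : ℕ => rr (Q ^ n * u) :=
  sm_of hQ u (C := 4 * ‖u‖) fun n h => (norm_rr h.le (by norm_num)).trans_eq (by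
    rw [norm_mul, norm_pow]; ring)

lemma sm_ss (hQ : ‖Q‖ < 1) (u : ℂ) : Summable fun n : ℕ => ss (Q ^ n * u) :=
  sm_of hQ u (C := 16 * ‖u‖) fun n h => (norm_ss h.le (by norm_num)).trans_eq (by
    rw [norm_mul, norm_pow]; ring)

lemma norm_fd {n : ℕ} (h : ‖Q ^ n * u‖ < 1 / 2) :
    ‖2 * Q ^ n / (1 - Q ^ n * u) ^ 2‖ ≤ 8 * ‖Q‖ ^ n := by
  rw [norm_div, norm_mul, norm_pow, norm_pow, Complex.norm_two]
  refine (div_le_div_of_nonneg_left (c := (1 / 2) ^ 2) (by positivity) (by positivity)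
    (pow_le_pow_left₀ (by norm_num) (by linarith [le_norm_one_sub (Q ^ n * u)]) 2)).trans_eq ?_
  ring

lemma fr_eq (hQ : ‖Q‖ < 1) (u : ℂ) : fr Q u = rr u + fr Q (Q * u) := by
  rw [fr, (sm_rr hQ u).tsum_eq_zero_add, fr]
  simp only [pow_zero, one_mul, pow_succ, mul_assoc]

lemma fs_eq (hQ : ‖Q‖ < 1) (u : ℂ) : fs Q u = ss u + fs Q (Q * u) := by
  rw [fs, (sm_ss hQ u).tsum_eq_zero_add, fs]
  simp only [pow_zero, one_mul, pow_succ, mul_assoc]

lemma fd_eq (hQ : ‖Q‖ < 1) (u : ℂ) : fd Q u = 2 / (1 - u) ^ 2 + fd Q (Q * u) * Q := by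
  rw [fd, (sm_of hQ u fun n => norm_fd).tsum_eq_zero_add, fd, ← tsum_mul_right]
  simp only [pow_zero, one_mul, mul_one]
  exact congrArg _ (tsum_congr fun n => by ring)

lemma fs_fd (Q u : ℂ) : fs Q u = 2 * u * fd Q u := by
  rw [fs, fd, ← tsum_mul_left]
  exact tsum_congr fun n => by rw [ss]; ring

lemma hd_rr {w : ℂ} (h : w ≠ 1) : HasDerivAt rr (2 / (1 - w) ^ 2) w := by
  have h' : 1 - w ≠ 0 := sub_ne_zero.2 h.symm
  refine (((hasDerivAt_id w).const_mul 2).div ((hasDerivAt_id w).const_sub 1) h').congr_deriv ?_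
  simp only [id]
  field_simp
  ring

lemma hd_fr (hQ : ‖Q‖ < 1) (h : ∀ n : ℕ, Q ^ n * u ≠ 1) : HasDerivAt (fr Q) (fd Q u) u := by
  obtain ⟨N, hN⟩ := (ev_small hQ u).exists
  induction N generalizing u with
  | zero =>
    have b (n : ℕ) (w : ℂ) (hw : w ∈ Metric.ball (0 : ℂ) (1 / 2)) : ‖Q ^ n * w‖ < 1 / 2 :=
      (norm_pm hQ.le n w).trans_lt (mem_ball_zero_iff.1 hw)
    refine hasDerivAt_tsum_of_isPreconnected
      ((summable_geometric_of_lt_one (norm_nonneg _) hQ).mul_left 8) Metric.isOpen_ball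
      (convex_ball _ _).isPreconnected (fun n w hw => ?_) (fun n w hw => norm_fd (b n w hw))
      (Metric.mem_ball_self (by norm_num)) (sm_rr hQ 0) (by simpa using hN)
    have : Q ^ n * w ≠ 1 := fun e => by have := b n w hw; rw [e] at this; norm_num at this
    exact ((hd_rr this).comp w ((hasDerivAt_id w).const_mul (Q ^ n))).congr_deriv (by ring)
  | succ N ih =>
    rw [funext (fr_eq hQ), fd_eq hQ]
    exact (hd_rr (by simpa using h 0)).add ((ih (u := Q * u) (fun n => by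
      simpa only [pow_succ, mul_assoc] using h (n + 1))
      (by simpa only [pow_succ, mul_assoc] using hN)).comp u
        (by simpa using (hasDerivAt_id u).const_mul Q))

lemma hd_fre (hQ : ‖Q‖ < 1) (c k ξ : ℂ) (h : ∀ n : ℕ, Q ^ n * (c * exp (k * ξ)) ≠ 1) :
    HasDerivAt (fun ξ => fr Q (c * exp (k * ξ))) (k / 2 * fs Q (c * exp (k * ξ))) ξ := by
  have a : HasDerivAt (fun ξ => c * exp (k * ξ)) (c * (exp (k * ξ) * (k * 1))) ξ :=
    ((hasDerivAt_id' ξ).const_mul k).cexp.const_mul c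
  have b := HasDerivAt.comp (h₂ := fr Q) ξ (hd_fr hQ h) a
  exact b.congr_deriv (by rw [fs_fd]; ring)

variable {ω : ℂ}

lemma mem_Lat {ξ : ℂ} : ξ ∈ Lat ω ↔ ∃ m n : ℤ, m * ω + n * (π * I) = ξ := by
  simp only [Lat, AddSubgroup.mem_closure_pair, zsmul_eq_mul]

lemma om_mem : ω ∈ Lat ω := mem_Lat.2 ⟨1, 0, by simp⟩
lemma pi_mem : π * I ∈ Lat ω := mem_Lat.2 ⟨0, 1, by simp⟩

lemma exp_ne {ξ : ℂ} (h : ξ ∉ Lat ω) (m : ℤ) : exp (2 * (ξ - m * ω)) ≠ 1 := fun e => by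
  obtain ⟨n, hn⟩ := exp_eq_one_iff.1 e
  exact h (mem_Lat.2 ⟨m, n, by linear_combination -hn / 2⟩)

lemma nQ (hω : 0 < ω.re) : ‖exp (-2 * ω)‖ < 1 := by
  rw [norm_exp]
  exact Real.exp_lt_one_iff.2 (by simpa using hω)

lemma ne1 {ξ : ℂ} (h : ξ ∉ Lat ω) (n : ℕ) : exp (-2 * ω) ^ n * exp (-2 * ξ) ≠ 1 := by
  rw [← exp_nat_mul, ← exp_add]
  exact fun e => exp_ne (mt neg_mem_iff.1 h) n (by rw [← e]; congr 1; push_cast; ring)

lemma ne2 {ξ : ℂ} (h : ξ ∉ Lat ω) (n : ℕ) :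
    exp (-2 * ω) ^ n * (exp (-2 * ω) * exp (2 * ξ)) ≠ 1 := by
  rw [← exp_nat_mul, ← exp_add, ← exp_add]
  exact fun e => exp_ne h (n + 1) (by rw [← e]; congr 1; push_cast; ring)

lemma rr_add {ξ : ℂ} (h : ξ ∉ Lat ω) : rr (exp (-2 * ξ)) + rr (exp (2 * ξ)) = -2 := by
  have h1 : exp (2 * ξ) ≠ 1 := by simpa using exp_ne h 0
  have h2 := exp_ne_zero (2 * ξ)
  have h3 : 1 - exp (2 * ξ) ≠ 0 := sub_ne_zero.2 h1.symm
  have h4 : exp (2 * ξ) - 1 ≠ 0 := sub_ne_zero.2 h1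
  rw [neg_mul, exp_neg, rr, rr]
  field_simp
  ring

lemma La_pi (ξ : ℂ) : La ω (ξ + π * I) = La ω ξ := by
  have a : exp (-2 * (ξ + π * I)) = exp (-2 * ξ) := by
    rw [exp_eq_exp_iff_exists_int]; exact ⟨-1, by push_cast; ring⟩
  have b : exp (2 * (ξ + π * I)) = exp (2 * ξ) := by
    rw [exp_eq_exp_iff_exists_int]; exact ⟨1, by push_cast; ring⟩
  rw [La, La, a, b]

variable (hω : 0 < ω.re)
include hω

lemma hd_La {ξ : ℂ} (h : ξ ∉ Lat ω) : HasDerivAt (La ω) (Lp ω ξ) ξ := by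
  have a := hd_fre (nQ hω) 1 (-2) ξ (by simpa only [one_mul] using ne1 h)
  simp only [one_mul] at a
  exact ((a.const_add 1).sub (hd_fre (nQ hω) _ 2 ξ (ne2 h))).congr_deriv (by rw [Lp]; ring)

lemma La_neg {ξ : ℂ} (h : ξ ∉ Lat ω) : La ω (-ξ) = -La ω ξ := by
  rw [La, La, show -2 * -ξ = 2 * ξ by ring, show 2 * -ξ = -2 * ξ by ring,
    fr_eq (nQ hω) (exp (2 * ξ)), fr_eq (nQ hω) (exp (-2 * ξ))]
  linear_combination rr_add h

lemma La_om {ξ : ℂ} (h : ξ ∉ Lat ω) : La ω (ξ + ω) = La ω ξ + 2 := by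
  have a : exp (-2 * (ξ + ω)) = exp (-2 * ω) * exp (-2 * ξ) := by rw [← exp_add]; congr 1; ring
  have b : exp (-2 * ω) * exp (2 * (ξ + ω)) = exp (2 * ξ) := by rw [← exp_add]; congr 1; ring
  rw [La, La, a, b, fr_eq (nQ hω) (exp (2 * ξ)), fr_eq (nQ hω) (exp (-2 * ξ))]
  linear_combination -rr_add h

lemma Lat_sep {l : ℂ} (h : l ∈ Lat ω) (h1 : ‖l‖ < min ω.re π) : l = 0 := by
  obtain ⟨m, n, rfl⟩ := mem_Lat.1 h
  have a := (abs_re_le_norm _).trans_lt (h1.trans_le (min_le_left _ _))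
  simp only [add_re, mul_re, intCast_re, intCast_im, ofReal_re, ofReal_im, I_re, I_im, mul_im,
    zero_mul, mul_zero, sub_zero, add_zero, abs_mul, abs_of_pos hω] at a
  obtain rfl : m = 0 := Int.abs_lt_one_iff.1 (by exact_mod_cast (mul_lt_iff_lt_one_left hω).1 a)
  have b := h1.trans_le (min_le_right _ _)
  simp only [Int.cast_zero, zero_mul, zero_add, norm_mul, norm_intCast, norm_real, norm_I, mul_one,
    Real.norm_of_nonneg Real.pi_pos.le] at b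
  obtain rfl : n = 0 :=
    Int.abs_lt_one_iff.1 (by exact_mod_cast (mul_lt_iff_lt_one_left Real.pi_pos).1 b)
  simp

lemma ev_nm (s a : ℂ) : ∀ᶠ z in 𝓝[≠] s, z - a ∉ Lat ω := by
  have r0 : 0 < min ω.re π / 2 := half_pos (lt_min hω Real.pi_pos)
  by_cases h : ∃ l, l - a ∈ Lat ω ∧ l ∈ Metric.ball s (min ω.re π / 2)
  · obtain ⟨l, h1, h2⟩ := h
    have e : ∀ᶠ z in 𝓝[≠] s, z ≠ l := by
      rcases eq_or_ne s l with rfl | h
      exacts [self_mem_nhdsWithin, (eventually_ne_nhds h).filter_mono nhdsWithin_le_nhds]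
    filter_upwards [e, nhdsWithin_le_nhds (Metric.ball_mem_nhds s r0)] with z h3 h4 h5
    refine h3 (sub_eq_zero.1 (Lat_sep hω (by simpa using sub_mem h5 h1) ?_))
    rw [← dist_eq_norm]
    linarith [dist_triangle_right z l s, Metric.mem_ball.1 h4, Metric.mem_ball.1 h2]
  · filter_upwards [nhdsWithin_le_nhds (Metric.ball_mem_nhds s r0)] with z h4 h5 using
      h ⟨z, h5, h4⟩

lemma ev_n0 (s : ℂ) : ∀ᶠ z in 𝓝[≠] s, z ∉ Lat ω := by simpa using ev_nm hω s 0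

lemma open_U : IsOpen (Lat ω : Set ℂ)ᶜ := isOpen_iff_mem_nhds.2 fun s hs => by
  have := ev_n0 hω s
  rw [eventually_nhdsWithin_iff] at this
  exact this.mono fun z hz => by
    rcases eq_or_ne z s with rfl | h
    exacts [hs, hz h]

lemma ev_U {s : ℂ} (h : s ∉ Lat ω) : ∀ᶠ z in 𝓝 s, z ∉ Lat ω := (open_U hω).mem_nhds h

lemma an_of {F : ℂ → ℂ} (h : DifferentiableOn ℂ F (Lat ω : Set ℂ)ᶜ) {s : ℂ} (hs : s ∉ Lat ω) :
    AnalyticAt ℂ F s := h.analyticAt (ev_U hω hs)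

lemma an_La {s : ℂ} (h : s ∉ Lat ω) : AnalyticAt ℂ (La ω) s :=
  an_of hω (fun _ hz => (hd_La hω hz).differentiableAt.differentiableWithinAt) h

lemma an_Lp {s : ℂ} (h : s ∉ Lat ω) : AnalyticAt ℂ (Lp ω) s :=
  (an_La hω h).deriv.congr ((ev_U hω h).mono fun _ hz => (hd_La hω hz).deriv)

lemma La_add {l : ℂ} (hl : l ∈ Lat ω) : ∃ e : ℝ, ∀ ξ ∉ Lat ω, La ω (ξ + l) = La ω ξ + e := by
  induction hl using AddSubgroup.closure_induction with
  | mem x hx =>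
    rcases hx with rfl | rfl
    exacts [⟨2, fun ξ h => La_om hω h⟩, ⟨0, fun ξ _ => by simp [La_pi]⟩]
  | zero => exact ⟨0, by simp⟩
  | add x y hx hy h1 h2 =>
    obtain ⟨e, h1⟩ := h1
    obtain ⟨e', h2⟩ := h2
    exact ⟨e + e', fun ξ h => by
      rw [← add_assoc, h2 _ (mt (add_mem_cancel_right hx).1 h), h1 _ h]; push_cast; ring⟩
  | neg x hx h1 =>
    obtain ⟨e, h1⟩ := h1
    exact ⟨-e, fun ξ h => by
      have := h1 (ξ + -x) (mt (add_mem_cancel_right (neg_mem hx)).1 h)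
      rw [neg_add_cancel_right] at this
      rw [this]; push_cast; ring⟩

lemma Lp_add {l ξ : ℂ} (hl : l ∈ Lat ω) (h : ξ ∉ Lat ω) : Lp ω (ξ + l) = Lp ω ξ := by
  obtain ⟨e, he⟩ := La_add hω hl
  exact (HasDerivAt.comp_add_const ξ l (hd_La hω (mt (add_mem_cancel_right hl).1 h))).unique
    (((hd_La hω h).add_const (e : ℂ)).congr_of_eventuallyEq ((ev_U hω h).mono he))

lemma Lp_neg {ξ : ℂ} (h : ξ ∉ Lat ω) : Lp ω (-ξ) = Lp ω ξ := by
  have a := ((hd_La hω (mt neg_mem_iff.1 h)).comp ξ (hasDerivAt_neg ξ)).unique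
    ((hd_La hω h).neg.congr_of_eventuallyEq ((ev_U hω h).mono fun _ hz => La_neg hω hz))
  linear_combination -a

/-- The Laurent expansion at the origin. -/
lemma La_zero : ∃ k, AnalyticAt ℂ k 0 ∧ k 0 = 0 ∧ (∀ᶠ z in 𝓝[≠] 0, La ω z = 1 / z + k z) ∧
    ∀ᶠ z in 𝓝[≠] 0, Lp ω z = -1 / z ^ 2 + deriv k z := by
  obtain ⟨q, hq⟩ : ∃ q, q = dslope (fun z => exp (2 * z)) (0 : ℂ) := ⟨_, rfl⟩
  have ae : AnalyticAt ℂ (fun z => exp (2 * z)) (0 : ℂ) := by fun_prop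
  have aq : AnalyticAt ℂ q 0 := by
    obtain ⟨p, hp⟩ := ae
    exact hq ▸ ⟨_, hp.has_fpower_series_dslope_fslope⟩
  have q0 : q 0 = 2 := by
    rw [hq, dslope_same]
    simpa using (((hasDerivAt_id (0 : ℂ)).const_mul 2).cexp).deriv
  obtain ⟨p, hp⟩ : AnalyticAt ℂ (fun z => 2 / q z) 0 :=
    analyticAt_const.div aq (by rw [q0]; norm_num)
  have af (k : ℂ) : AnalyticAt ℂ (fun z => fr (exp (-2 * ω)) (exp (-2 * ω) * exp (k * z))) 0 := by
    have c : ContinuousAt (fun z => ‖exp (-2 * ω) * exp (k * z)‖) 0 := by fun_prop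
    refine analyticAt_iff_eventually_differentiableAt.2 ((c.eventually_lt continuousAt_const
      (by simpa using nQ hω)).mono fun z hz => (hd_fre (nQ hω) _ k z fun n e => ?_).differentiableAt)
    exact absurd (e ▸ norm_pm (nQ hω).le n _) (by simpa using hz)
  obtain ⟨k, ak, hk⟩ : ∃ k, AnalyticAt ℂ k 0 ∧ ∀ᶠ z in 𝓝[≠] 0, La ω z = 1 / z + k z := by
    refine ⟨_, ((analyticAt_const (v := 1)).add ⟨_, hp.has_fpower_series_dslope_fslope⟩).add
      ((af (-2)).sub (af 2)), ?_⟩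
    filter_upwards [self_mem_nhdsWithin, ev_n0 hω 0] with z (hz : z ≠ 0) h
    have h1 : exp (2 * z) - 1 ≠ 0 := sub_ne_zero.2 (by simpa using exp_ne h 0)
    have h2 := exp_ne_zero (2 * z)
    simp only [Pi.add_apply, Pi.sub_apply]
    rw [La, fr_eq (nQ hω) (exp (-2 * z)), dslope_of_ne _ hz, slope_def_field, q0, hq,
      dslope_of_ne _ hz, slope_def_field, rr, neg_mul 2 z, exp_neg]
    simp only [mul_zero, exp_zero, sub_zero]
    field_simp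
    ring
  have c := ak.continuousAt.tendsto.mono_left (nhdsWithin_le_nhds (s := {0}ᶜ))
  have t : Tendsto (fun z : ℂ => -z) (𝓝[≠] 0) (𝓝[≠] 0) :=
    tendsto_nhdsWithin_iff.2 ⟨(continuous_neg.tendsto' (0 : ℂ) 0 neg_zero).mono_left
      nhdsWithin_le_nhds, eventually_mem_nhdsWithin.mono fun z hz => neg_ne_zero.2 hz⟩
  refine ⟨k, ak, ?_, hk, ?_⟩
  · have := tendsto_nhds_unique_of_eventuallyEq (c.comp t) c.neg (by
      filter_upwards [hk, t.eventually hk, ev_n0 hω 0] with z h1 h2 h3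
      rw [La_neg hω h3, h1] at h2
      simp only [Function.comp]
      linear_combination -h2)
    linear_combination this / 2
  · filter_upwards [eventually_eventually_nhdsWithin.2 hk, self_mem_nhdsWithin, ev_n0 hω 0,
      nhdsWithin_le_nhds ak.eventually_analyticAt] with z h1 (h2 : z ≠ 0) h3 h4
    rw [nhdsWithin_eq_nhds.2 (isOpen_compl_singleton.mem_nhds h2)] at h1
    refine (hd_La hω h3).unique (HasDerivAt.congr_of_eventuallyEq ?_ h1)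
    simpa [neg_div] using (hasDerivAt_inv h2).fun_add h4.differentiableAt.hasDerivAt

end Pool.Agent.MP_c434f6_gt
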