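import Pool.Agent.MP_c434f6_gt.Ell

/-! Liouville's theorem for elliptic functions, and the degree of `Lp`. -/

open Complex Filter Topology
open scoped Real

namespace Pool.Agent.MP_c434f6_gt

/-- The property holds off a discrete set. -/
def Cod (P : ℂ → Prop) : Prop := ∀ s, ∀ᶠ z in 𝓝[≠] s, P z

/-- Removable singularity. -/
def Ok (D : ℂ → ℂ) (s : ℂ) : Prop := ∃ g, AnalyticAt ℂ g s ∧ D =ᶠ[𝓝[≠] s] g

lemma tend_aff {k : ℂ} (hk : k ≠ 0) (s l : ℂ) :
    Tendsto (fun z => k * z + l) (𝓝[≠] s) (𝓝[≠] (k * s + l)) :=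
  tendsto_nhdsWithin_iff.2 ⟨(Continuous.tendsto (by fun_prop) s).mono_left nhdsWithin_le_nhds,
    eventually_mem_nhdsWithin.mono fun z hz e => hz (mul_left_cancel₀ hk (add_right_cancel e))⟩

lemma tend_add (s l : ℂ) : Tendsto (fun z => z + l) (𝓝[≠] s) (𝓝[≠] (s + l)) := by
  simpa using tend_aff one_ne_zero s l

lemma Cod.shift {P : ℂ → Prop} (h : Cod P) (l : ℂ) : Cod fun z => P (z + l) :=
  fun s => (tend_add s l).eventually (h _)

lemma Cod.neg {P : ℂ → Prop} (h : Cod P) : Cod fun z => P (-z) := fun s => by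
  simpa using (tend_aff (neg_ne_zero.2 one_ne_zero) s 0).eventually (h _)

lemma Cod.val {D : ℂ → ℂ} {c s : ℂ} (h : ∀ᶠ z in 𝓝[≠] s, D z = c) (hs : ContinuousAt D s) :
    D s = c :=
  tendsto_nhds_unique_of_eventuallyEq (hs.tendsto.mono_left nhdsWithin_le_nhds)
    tendsto_const_nhds h

variable {D D' : ℂ → ℂ} {s : ℂ}

lemma Ok.of (h : AnalyticAt ℂ D s) : Ok D s := ⟨D, h, .rfl⟩

lemma Ok.congr (h : Ok D s) (e : ∀ᶠ z in 𝓝[≠] s, D z = D' z) : Ok D' s :=
  let ⟨g, a, b⟩ := h; ⟨g, a, (EventuallyEq.symm e).trans b⟩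

lemma Ok.add (h : Ok D s) (h' : Ok D' s) : Ok (fun z => D z + D' z) s :=
  let ⟨_, a, b⟩ := h; let ⟨_, a', b'⟩ := h'; ⟨_, a.add a', b.add b'⟩

lemma Ok.sub (h : Ok D s) (h' : Ok D' s) : Ok (fun z => D z - D' z) s :=
  let ⟨_, a, b⟩ := h; let ⟨_, a', b'⟩ := h'; ⟨_, a.sub a', b.sub b'⟩

lemma Ok.mul (h : Ok D s) (h' : Ok D' s) : Ok (fun z => D z * D' z) s :=
  let ⟨_, a, b⟩ := h; let ⟨_, a', b'⟩ := h'; ⟨_, a.mul a', b.mul b'⟩

lemma Ok.const (c s : ℂ) : Ok (fun _ => c) s := .of analyticAt_const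

lemma Ok.aff {k l : ℂ} (hk : k ≠ 0) (h : Ok D (k * s + l)) : Ok (fun z => D (k * z + l)) s :=
  let ⟨_, a, b⟩ := h
  ⟨_, AnalyticAt.comp_of_eq a (f := fun z => k * z + l) (by fun_prop) rfl,
    (tend_aff hk s l).eventually b⟩

lemma an_dslope (h : AnalyticAt ℂ D s) : AnalyticAt ℂ (dslope D s) s :=
  let ⟨_, hp⟩ := h; ⟨_, hp.has_fpower_series_dslope_fslope⟩

/-- Splitting off the pole. -/
lemma Ok.pole (h : Ok (fun z => (z - s) * D z) s) : ∃ r, Ok (fun z => D z - r / (z - s)) s := by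
  obtain ⟨g, a, b⟩ := h
  refine ⟨g s, _, an_dslope a, ?_⟩
  filter_upwards [b, self_mem_nhdsWithin] with z h1 (h2 : z ≠ s)
  have := sub_ne_zero.2 h2
  rw [dslope_of_ne _ h2, slope_def_field, ← h1]
  field_simp

lemma Ok.res {r : ℂ} (h : Ok (fun z => r / (z - s)) s) : r = 0 := by
  obtain ⟨g, a, b⟩ := h
  have := a.continuousAt
  refine (Cod.val (s := s) (D := fun z => (z - s) * g z) ?_ (by fun_prop)).symm.trans (by simp)
  filter_upwards [b, self_mem_nhdsWithin] with z h1 (h2 : z ≠ s)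
  rw [← h1, mul_div_cancel₀ _ (sub_ne_zero.2 h2)]

lemma Ok.zero_mul (a : AnalyticAt ℂ D s) (h0 : D s = 0) (h : Ok (fun z => (z - s) * D' z) s) :
    Ok (fun z => D z * D' z) s :=
  ((Ok.of (an_dslope a)).mul h).congr (eventually_mem_nhdsWithin.mono fun z (h2 : z ≠ s) => by
    have := sub_ne_zero.2 h2
    rw [dslope_of_ne _ h2, slope_def_field, h0]
    field_simp
    ring)

lemma Ok.of_bdd (hd : ∀ᶠ z in 𝓝[≠] s, DifferentiableAt ℂ D z)
    (hb : D =O[𝓝[≠] s] fun _ => (1 : ℝ)) : Ok D s := by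
  have t := tendsto_limUnder_of_differentiable_on_punctured_nhds_of_bounded_under hd
    ((Asymptotics.isBigO_one_iff ℝ).1 (hb.sub (Asymptotics.isBigO_const_one ..)))
  have e : ∀ᶠ z in 𝓝[≠] s, D =ᶠ[𝓝 z] Function.update D s (limUnder (𝓝[≠] s) D) :=
    eventually_mem_nhdsWithin.mono fun z hz => (eventually_ne_nhds hz).mono fun w hw =>
      (Function.update_of_ne hw ..).symm
  exact ⟨_, analyticAt_of_differentiable_on_punctured_nhds_of_continuousAt
    ((hd.and e).mono fun z hz => hz.1.congr_of_eventuallyEq hz.2.symm)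
    (continuousAt_update_same.2 t), e.mono fun z hz => hz.self_of_nhds⟩

/-- The residue of the logarithmic derivative is the order. -/
lemma logd (a : AnalyticAt ℂ D s) (h : ¬∀ᶠ z in 𝓝 s, D z = 0) : ∃ n : ℕ, analyticOrderAt D s = n ∧
    (∀ᶠ z in 𝓝[≠] s, D z ≠ 0) ∧ Ok (fun z => deriv D z / D z - n / (z - s)) s := by
  obtain ⟨n, hn⟩ := ENat.ne_top_iff_exists.1 (mt analyticOrderAt_eq_top.1 h)
  obtain ⟨g, ag, g0, e⟩ := a.analyticOrderAt_eq_natCast.1 hn.symm
  refine ⟨n, hn.symm, a.eventually_eq_zero_or_eventually_ne_zero.resolve_left h,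
    fun z => deriv g z / g z, ag.deriv.div ag g0, ?_⟩
  filter_upwards [self_mem_nhdsWithin, nhdsWithin_le_nhds e.eventually_nhds,
    nhdsWithin_le_nhds ag.eventually_analyticAt,
    nhdsWithin_le_nhds (ag.continuousAt.eventually_ne g0)] with z (h2 : z ≠ s) h3 h4 h5
  have := sub_ne_zero.2 h2
  rw [(((((hasDerivAt_id z).sub_const s).pow n).mul
    h4.differentiableAt.hasDerivAt).congr_of_eventuallyEq h3).deriv, h3.self_of_nhds]
  rcases n with _ | n
  · simp
  simp
  field_simp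
  ring

lemma ord_of {r : ℂ} (a : AnalyticAt ℂ D s) (h : ¬∀ᶠ z in 𝓝 s, D z = 0)
    (hr : Ok (fun z => deriv D z / D z - r / (z - s)) s) :
    ∃ n : ℕ, analyticOrderAt D s = n ∧ r = n := by
  obtain ⟨n, h1, -, h2⟩ := logd a h
  exact ⟨n, h1, sub_eq_zero.1 (Ok.res ((h2.sub hr).congr (.of_forall fun z => by ring)))⟩

/-- Uniqueness for a linear differential equation. -/
lemma ode_eq {U : Set ℂ} (hU : IsOpen U) (hc : IsPreconnected U) {u v : ℂ → ℂ}
    (hu : DifferentiableOn ℂ u U) (hv : DifferentiableOn ℂ v U) (hs : s ∈ U) (h0 : v s ≠ 0)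
    (h : ∀ᶠ z in 𝓝[≠] s, deriv u z * v z = u z * deriv v z) {z : ℂ} (hz : z ∈ U) :
    u z * v s = u s * v z := by
  have au := hu.analyticOnNhd hU
  have av := hv.analyticOnNhd hU
  have a := (au s hs).div (av s hs) h0
  have nz := (av s hs).continuousAt.eventually_ne h0
  have e : ∀ᶠ z in 𝓝[≠] s, deriv (u / v) z = 0 := by
    filter_upwards [h, nhdsWithin_le_nhds nz, nhdsWithin_le_nhds (hU.mem_nhds hs)] with z h1 h2 h3
    rw [deriv_div (au z h3).differentiableAt (av z h3).differentiableAt h2, h1, sub_self, zero_div]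
  have e' : ∀ᶠ z in 𝓝 s, deriv (u / v) z = 0 ∧ AnalyticAt ℂ (u / v) z :=
    (a.deriv.frequently_zero_iff_eventually_zero.1 e.frequently).and a.eventually_analyticAt
  obtain ⟨r, r0, hr⟩ := Metric.eventually_nhds_iff_ball.1 e'
  refine ((au.mul analyticOnNhd_const).eqOn_of_preconnected_of_eventuallyEq
    (analyticOnNhd_const.mul av) hc hs ?_) hz
  filter_upwards [nz, Metric.ball_mem_nhds s r0] with z h1 h2
  have := Metric.isOpen_ball.is_const_of_deriv_eq_zero (convex_ball s r).isPreconnected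
    (fun z hz => (hr z hz).2.differentiableAt.differentiableWithinAt) (fun z hz => (hr z hz).1)
    h2 (Metric.mem_ball_self r0)
  rwa [Pi.div_apply, Pi.div_apply, div_eq_div_iff h1 h0] at this

variable {ω : ℂ} (hω : 0 < ω.re)
include hω

lemma liou0 {e : ℂ} (h : ∀ s, Ok D s) (h1 : Cod fun z => D (z + π * I) = D z)
    (h2 : Cod fun z => D (z + ω) = D z + e) : e = 0 ∧ ∃ c, Cod fun z => D z = c := by
  choose g ag hg using h
  have loc (s) : (fun z => g z z) =ᶠ[𝓝 s] g s := by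
    have := (eventually_eventually_nhdsWithin.2 (hg s)).and
      (nhdsWithin_le_nhds (ag s).eventually_continuousAt)
    rw [eventually_nhdsWithin_iff] at this
    filter_upwards [this] with z hz
    rcases eq_or_ne z s with rfl | h
    · rfl
    obtain ⟨h3, h4⟩ := hz h
    rw [nhdsWithin_eq_nhds.2 (isOpen_compl_singleton.mem_nhds h)] at h3
    exact tendsto_nhds_unique_of_eventuallyEq
      ((ag z).continuousAt.tendsto.mono_left nhdsWithin_le_nhds)
      (h4.tendsto.mono_left nhdsWithin_le_nhds) ((hg z).symm.trans (nhdsWithin_le_nhds h3))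
  obtain ⟨G, hG⟩ : ∃ G, G = fun z => g z z := ⟨_, rfl⟩
  rw [← hG] at loc
  have aG (s) : AnalyticAt ℂ G s := (ag s).congr (loc s).symm
  have dG : Differentiable ℂ G := fun s => (aG s).differentiableAt
  have cG := dG.continuous
  have eG : Cod fun z => D z = G z := fun s => (hg s).trans (nhdsWithin_le_nhds (loc s).symm)
  have p (l e) (h : Cod fun z => D (z + l) = D z + e) (s) : G (s + l) - G s = e :=
    Cod.val (D := fun z => G (z + l) - G z) (by
      filter_upwards [h s, eG s, eG.shift l s] with z a b c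
      rw [← b, ← c, a, add_sub_cancel_left]) (by fun_prop)
  have p1 := p _ 0 (by simpa using h1)
  have p2 := p _ _ h2
  have q (l e) (h : ∀ s, G (s + l) - G s = e) : Function.Periodic (deriv G) l := fun s => by
    rw [← deriv_comp_add_const, show (fun x => G (x + l)) = fun x => G x + e from
      funext fun x => by rw [← h x]; ring, deriv_add_const]
  have b : Bornology.IsBounded (Set.range (deriv G)) := by
    refine (((isCompact_Icc (a := (0 : ℝ × ℝ)) (b := 1)).image (f := fun x : ℝ × ℝ =>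
      deriv G (x.1 * ω + x.2 * (π * I))) (dG.deriv.continuous.comp (by fun_prop))).isBounded).subset ?_
    rintro _ ⟨z, rfl⟩
    obtain ⟨x, hx⟩ : ∃ x : ℝ, x = z.re / ω.re := ⟨_, rfl⟩
    obtain ⟨y, hy⟩ : ∃ y : ℝ, y = (z.im - x * ω.im) / π := ⟨_, rfl⟩
    refine ⟨(Int.fract x, Int.fract y), ⟨⟨Int.fract_nonneg _, Int.fract_nonneg _⟩,
      (Int.fract_lt_one _).le, (Int.fract_lt_one _).le⟩, ?_⟩
    rw [← (q _ _ p2).sub_int_mul_eq ⌊x⌋, ← (q _ _ p1).sub_int_mul_eq ⌊y⌋ (x := z - _)]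
    have : z = x * ω + y * (π * I) := by
      have := Real.pi_ne_zero
      apply Complex.ext <;> simp [hy]
      rw [hx]; field_simp
    simp only [Int.fract]
    congr 1
    rw [this]; push_cast; ring
  have l (z) : G z - z * deriv G 0 = G 0 := by
    have d (z) : HasDerivAt (fun z => G z - z * deriv G 0) 0 z :=
      ((dG z).hasDerivAt.sub (hasDerivAt_mul_const _)).congr_deriv
        (sub_eq_zero.2 (dG.deriv.apply_eq_apply_of_bounded b z 0))
    simpa using is_const_of_deriv_eq_zero (fun z => (d z).differentiableAt)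
      (fun z => (d z).deriv) z 0
  have z0 : deriv G 0 = 0 := (mul_eq_zero.1 (show π * I * deriv G 0 = 0 by
    linear_combination p1 0 - l (0 + π * I))).resolve_left (by simp [Real.pi_ne_zero])
  simp only [z0, mul_zero, sub_zero] at l
  exact ⟨by rw [← p2 0, l, l, sub_self], G 0, fun s => (eG s).mono fun z hz => hz.trans (l z)⟩

lemma ok_La : Ok (fun z => La ω z - 1 / z) 0 :=
  let ⟨k, a, _, h, _⟩ := La_zero hω
  ⟨k, a, h.mono fun z hz => by simp only [hz]; ring⟩

lemma ok_Lp : Ok (fun z => Lp ω z + 1 / z ^ 2) 0 :=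
  let ⟨k, a, _, _, h⟩ := La_zero hω
  ⟨_, a.deriv, h.mono fun z hz => by simp only [hz]; ring⟩

/-- `La (z - a)` has residue one at the points of `a + Lat`. -/
lemma ok_La' {a s : ℂ} (h : s - a ∈ Lat ω) : Ok (fun z => La ω (z - a) - 1 / (z - s)) s := by
  obtain ⟨e, he⟩ := La_add hω h
  refine ((Ok.aff (k := 1) (l := -s) one_ne_zero (by simpa using ok_La hω)).add
    (.const e s)).congr ?_
  filter_upwards [ev_nm hω s s] with z hz
  rw [show z - a = z - s + (s - a) by ring, he _ hz, one_mul, ← sub_eq_add_neg]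
  ring

lemma ok_La'' (a s : ℂ) : Ok (fun z => (z - s) * La ω (z - a)) s := by
  by_cases h : s - a ∈ Lat ω
  · refine (((Ok.of (D := fun z => z - s) (by fun_prop)).mul (ok_La' hω h)).add
      (.const 1 s)).congr (eventually_mem_nhdsWithin.mono fun z (hz : z ≠ s) => ?_)
    have := sub_ne_zero.2 hz
    field_simp
    ring
  · exact .of (AnalyticAt.mul (by fun_prop) (AnalyticAt.comp_of_eq (an_La hω h)
      (f := fun z => z - a) (by fun_prop) rfl))

/-- An elliptic function with at most simple poles on the lattice is constant. -/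
lemma liou1 (hp : ∀ l ∈ Lat ω, Cod fun z => D (z + l) = D z) (h : ∀ s ∉ Lat ω, Ok D s)
    (h0 : Ok (fun z => z * D z) 0) : ∃ c, Cod fun z => D z = c := by
  obtain ⟨r, hr⟩ := Ok.pole (s := 0) (by simpa using h0)
  have k : Ok (fun z => D z - r * La ω z) 0 :=
    (hr.sub ((Ok.const r 0).mul (ok_La hω))).congr (.of_forall fun z => by ring)
  obtain ⟨h1, c, h2⟩ := liou0 hω (D := fun z => D z - r * La ω z) (e := -2 * r) (fun s => by
    by_cases hs : s ∈ Lat ω
    · obtain ⟨e, he⟩ := La_add hω (neg_mem hs)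
      refine ((Ok.aff (k := 1) (l := -s) one_ne_zero (by simpa using k)).add
        (.const (r * e) s)).congr ?_
      filter_upwards [hp _ (neg_mem hs) s, ev_n0 hω s] with z h1 h2
      rw [one_mul, h1, he _ h2]; ring
    · exact (h s hs).sub (.of (analyticAt_const.mul (an_La hω hs))))
    (fun s => (hp _ pi_mem s).mono fun z hz => by simp only [hz, La_pi])
    fun s => ((hp _ om_mem s).and (ev_n0 hω s)).mono fun z hz => by
      simp only [hz.1, La_om hω hz.2]; ring
  obtain rfl : r = 0 := by linear_combination -h1 / 2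
  exact ⟨c, by simpa using h2⟩

/-- An elliptic function with at most double poles on the lattice. -/
lemma liou2 (hp : ∀ l ∈ Lat ω, Cod fun z => D (z + l) = D z) (h : ∀ s ∉ Lat ω, Ok D s)
    (h0 : Ok (fun z => z * (z * D z)) 0) : ∃ A B, Cod fun z => D z = A * Lp ω z + B := by
  obtain ⟨r, hr⟩ := Ok.pole (s := 0) (D := fun z => z * D z) (by simpa using h0)
  obtain ⟨c, hc⟩ := liou1 hω (D := fun z => D z + r * Lp ω z)
    (fun l hl s => ((hp l hl s).and (ev_n0 hω s)).mono fun z hz => by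
      simp only [hz.1, Lp_add hω hl hz.2])
    (fun s hs => (h s hs).add (.of (analyticAt_const.mul (an_Lp hω hs))))
    ((hr.add ((Ok.of (D := fun z => r * z) (by fun_prop)).mul (ok_Lp hω))).congr
      (eventually_mem_nhdsWithin.mono fun z (hz : z ≠ 0) => by field_simp; ring))
  exact ⟨-r, c, fun s => (hc s).mono fun z hz => by linear_combination hz⟩

omit hω in
lemma conn_U : IsPreconnected (Lat ω : Set ℂ)ᶜ := by
  refine (Set.Countable.isConnected_compl_of_one_lt_rank (by simp) ?_).isPreconnected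
  refine (Set.countable_range fun x : ℤ × ℤ => x.1 * ω + x.2 * (π * I)).mono fun z hz => ?_
  obtain ⟨m, n, h⟩ := mem_Lat.1 hz
  exact ⟨(m, n), h⟩

omit hω in
lemma an_shift {F : ℂ → ℂ} (h : ∀ s ∉ Lat ω, AnalyticAt ℂ F s) {a s : ℂ} (hs : s - a ∉ Lat ω) :
    AnalyticAt ℂ (fun z => F (z - a)) s :=
  AnalyticAt.comp_of_eq (h _ hs) (f := fun z => z - a) (by fun_prop) rfl

lemma Lp_ne (A B : ℂ) (h : ∀ᶠ z in 𝓝[≠] 0, A * Lp ω z = B) : A = 0 := by
  have := (((Ok.of (D := fun z => A * z) (by fun_prop)).mul (ok_Lp hω)).sub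
    (.of (D := fun z => B * z) (by fun_prop))).congr (D' := fun z => A / (z - 0)) (by
      filter_upwards [h, self_mem_nhdsWithin] with z h1 (hz : z ≠ 0)
      rw [← h1]; field_simp; ring)
  exact this.res

lemma Lp_nc (c : ℂ) {s : ℂ} (hs : s ∉ Lat ω) : ¬∀ᶠ z in 𝓝 s, Lp ω z - c = 0 := fun h =>
  one_ne_zero (Lp_ne hω 1 c ((ev_n0 hω 0).mono fun z hz => by
    rw [one_mul, ← sub_eq_zero]
    exact AnalyticOnNhd.eqOn_zero_of_preconnected_of_eventuallyEq_zero
      (f := fun z => Lp ω z - c) (fun z hz => (an_Lp hω hz).sub analyticAt_const) conn_U hs h hz))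

lemma dLp_add {l ξ : ℂ} (hl : l ∈ Lat ω) (h : ξ ∉ Lat ω) :
    deriv (Lp ω) (ξ + l) = deriv (Lp ω) ξ := by
  rw [← deriv_comp_add_const]
  exact EventuallyEq.deriv_eq ((ev_U hω h).mono fun z hz => Lp_add hω hl hz)

lemma dLp_neg {ξ : ℂ} (h : ξ ∉ Lat ω) : deriv (Lp ω) (-ξ) = -deriv (Lp ω) ξ := by
  rw [← EventuallyEq.deriv_eq ((ev_U hω h).mono fun z hz => Lp_neg hω hz), deriv_comp_neg, neg_neg]

/-- The logarithmic derivative of `Lp - Lp a`. -/
lemma Ia {a : ℂ} (ha : a ∉ Lat ω) : Cod fun z =>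
    (Lp ω z - Lp ω a) * (La ω (z - a) + La ω (z - -a) - 2 * La ω z) = deriv (Lp ω) z := by
  obtain ⟨c, hc⟩ := liou1 hω (D := fun z => (Lp ω z - Lp ω a) *
    (La ω (z - a) + La ω (z - -a) - 2 * La ω z) - deriv (Lp ω) z) (fun l hl s => by
      obtain ⟨e, he⟩ := La_add hω hl
      filter_upwards [ev_n0 hω s, ev_nm hω s a, ev_nm hω s (-a)] with z h1 h2 h3
      rw [Lp_add hω hl h1, dLp_add hω hl h1, add_sub_right_comm z, add_sub_right_comm z, he _ h1,
        he _ h2, he _ h3]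
      ring) (fun s hs => by
      have a1 := (an_Lp hω hs).fun_sub (analyticAt_const (v := Lp ω a))
      have k (b) (hb : b ∉ Lat ω) (e : Lp ω b = Lp ω a) :
          Ok (fun z => (Lp ω z - Lp ω a) * La ω (z - b)) s := by
        by_cases h : s - b ∈ Lat ω
        · refine Ok.zero_mul a1 ?_ (ok_La'' hω b s)
          rw [← e, ← Lp_add hω h hb, add_sub_cancel, sub_self]
        · exact .of (a1.mul (an_shift (fun _ => an_La hω) h))
      exact ((((k a ha rfl).add (k _ (mt neg_mem_iff.1 ha) (Lp_neg hω ha))).sub (.of (a1.mul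
        ((analyticAt_const (v := 2)).mul (an_La hω hs))))).sub (.of (an_Lp hω hs).deriv)).congr
        (.of_forall fun z => by simp only [Pi.mul_apply]; ring)) (by
      obtain ⟨k, ak, k0, h1, h2⟩ := La_zero hω
      have aS : AnalyticAt ℂ (fun z => La ω (z - a) + La ω (z - -a) - 2 * k z) 0 :=
        ((an_shift (fun _ => an_La hω) (by simpa using ha)).add (an_shift
          (fun _ => an_La hω) (by simpa using ha))).sub (analyticAt_const.mul ak)
      have a2 := (ak.deriv.sub (analyticAt_const (v := Lp ω a))).mul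
        (aS.mul analyticAt_id |>.sub (analyticAt_const (v := 2)))
      refine ⟨_, (a2.sub (an_dslope aS)).sub (analyticAt_id.mul ak.deriv.deriv), ?_⟩
      filter_upwards [h1, eventually_eventually_nhdsWithin.2 h2, self_mem_nhdsWithin,
        nhdsWithin_le_nhds ak.deriv.eventually_analyticAt] with z h1 h2 (hz : z ≠ 0) h4
      rw [nhdsWithin_eq_nhds.2 (isOpen_compl_singleton.mem_nhds hz)] at h2
      have d := ((((hasDerivAt_const z (-1)).div (hasDerivAt_pow 2 z) (pow_ne_zero 2 hz)).add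
        h4.differentiableAt.hasDerivAt).congr_of_eventuallyEq h2).deriv
      simp only [Pi.mul_apply, Pi.sub_apply, id, d, h1, h2.self_of_nhds, dslope_of_ne _ hz,
        slope_def_field, k0, zero_sub, neg_neg, La_neg hω ha]
      field_simp
      ring)
  obtain rfl : c = 0 := by
    obtain ⟨z, h1, h2, h3, h4, h5⟩ := ((hc 0).and ((hc.neg 0).and ((ev_n0 hω 0).and
      ((ev_nm hω 0 a).and (ev_nm hω 0 (-a)))))).exists
    rw [Lp_neg hω h3, dLp_neg hω h3, La_neg hω h3, show -z - a = -(z - -a) by ring,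
      show -z - -a = -(z - a) by ring, La_neg hω h4, La_neg hω h5] at h2
    linear_combination -(h1 + h2) / 2
  exact fun s => (hc s).mono fun z hz => sub_eq_zero.1 hz

lemma ord_Lp {a s r : ℂ} (ha : a ∉ Lat ω) (hs : s ∉ Lat ω)
    (h : Ok (fun z => La ω (z - a) + La ω (z - -a) - r / (z - s)) s) :
    ∃ n : ℕ, analyticOrderAt (fun z => Lp ω z - Lp ω a) s = n ∧ r = n := by
  have a1 := (an_Lp hω hs).fun_sub (analyticAt_const (v := Lp ω a))
  refine ord_of a1 (Lp_nc hω _ hs) ((h.sub (.of ((analyticAt_const (v := 2)).mul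
    (an_La hω hs)))).congr ?_)
  filter_upwards [Ia hω ha s, a1.eventually_eq_zero_or_eventually_ne_zero.resolve_left
    (Lp_nc hω _ hs)] with z h1 h2
  rw [deriv_sub_const, ← h1]
  simp only [Pi.mul_apply]
  field_simp
  ring

/-- `Lp` has degree two. -/
lemma deg2 {a s : ℂ} (ha : a ∉ Lat ω) (hs : s ∉ Lat ω) (h : Lp ω s = Lp ω a) :
    s - a ∈ Lat ω ∨ s + a ∈ Lat ω := by
  by_contra! H
  obtain ⟨n, h1, h2⟩ := ord_Lp hω (r := 0) ha hs (by
    simpa using Ok.of ((an_shift (fun _ => an_La hω) H.1).fun_add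
      (an_shift (fun _ => an_La hω) (a := -a) (by simpa using H.2))))
  obtain rfl : n = 0 := by exact_mod_cast h2.symm
  exact ((an_Lp hω hs).fun_sub analyticAt_const).analyticOrderAt_eq_zero.1 h1 (sub_eq_zero.2 h)

lemma simple {a : ℂ} (ha : a ∉ Lat ω) (h : a + a ∉ Lat ω) :
    analyticOrderAt (fun z => Lp ω z - Lp ω a) a = 1 := by
  obtain ⟨n, h1, h2⟩ := ord_Lp hω (r := 1) ha ha (((ok_La' hω (a := a) (by simp)).add
    (.of (an_shift (fun _ => an_La hω) (a := -a) (by simpa using h)))).congr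
      (.of_forall fun z => by ring))
  obtain rfl : n = 1 := by exact_mod_cast h2.symm
  exact h1

lemma dLp_ne {a : ℂ} (ha : a ∉ Lat ω) (h : a + a ∉ Lat ω) : deriv (Lp ω) a ≠ 0 := by
  simpa using ((analyticOrderAt_eq_nat_iff_iteratedDeriv_eq_zero
    ((an_Lp hω ha).fun_sub analyticAt_const) (n := 1)).1 (simple hω ha h)).2

lemma exists_zero : ∃ b ∉ Lat ω, Lp ω b = 0 := by
  by_contra! H
  obtain ⟨k, ak, hk⟩ := ok_Lp hω
  have e : ∀ᶠ z in 𝓝[≠] 0, (Lp ω z)⁻¹ = z ^ 2 / (z ^ 2 * k z - 1) := by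
    filter_upwards [hk, self_mem_nhdsWithin] with z h1 (hz : z ≠ 0)
    rw [← inv_div, ← h1]; congr 1; field_simp; ring
  have a : AnalyticAt ℂ (fun z => z ^ 2 / (z ^ 2 * k z - 1)) 0 :=
    AnalyticAt.div (by fun_prop) (by fun_prop) (by simp)
  obtain ⟨c, hc⟩ := liou1 hω (D := fun z => (Lp ω z)⁻¹)
    (fun l hl s => (ev_n0 hω s).mono fun z hz => by rw [Lp_add hω hl hz])
    (fun s hs => .of ((an_Lp hω hs).inv (H s hs))) ((Ok.of analyticAt_id).mul ⟨_, a, e⟩)
  have := Cod.val ((e.and (hc 0)).mono fun z hz => hz.1.symm.trans hz.2) a.continuousAt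
  obtain ⟨z, h1, h2⟩ := ((hc 0).and (ev_n0 hω 0)).exists
  exact inv_ne_zero (H z h2) (h1.trans (this.symm.trans (by simp)))

end Pool.Agent.MP_c434f6_gt
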