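import Pool.Agent.MP_c434f6_gt.Lio

/-! The rhombic lattices: real structure, monotonicity, and the normal form of a surface. -/

open Complex Filter Topology Set
open scoped Real ComplexConjugate

namespace Pool.Agent.MP_c434f6_gt

lemma hd_int {g : ℂ → ℂ} {α β : ℝ} {ξ : ℂ} (h : ∀ s ∈ uIcc α β, AnalyticAt ℂ g (ξ + s)) :
    HasDerivAt (fun ξ => ∫ s in α..β, g (ξ + s)) (g (ξ + β) - g (ξ + α)) ξ := by
  have hK : IsCompact ((fun s : ℝ => ξ + s) '' uIcc α β) := isCompact_uIcc.image (by fun_prop)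
  obtain ⟨δ, δ0, hδ⟩ := hK.exists_cthickening_subset_open (isOpen_analyticAt ℂ g)
    (by rintro _ ⟨s, hs, rfl⟩; exact h s hs)
  obtain ⟨C, hC⟩ := (hK.cthickening (r := δ)).exists_bound_of_continuousOn (f := deriv g)
    fun z hz => (hδ hz).deriv.continuousAt.continuousWithinAt
  have m (x) (hx : x ∈ Metric.ball ξ δ) (s : ℝ) (hs : s ∈ uIcc α β) :
      x + s ∈ Metric.cthickening δ ((fun s : ℝ => ξ + s) '' uIcc α β) :=
    Metric.mem_cthickening_of_dist_le _ _ _ _ ⟨s, hs, rfl⟩ (by simpa using (Metric.mem_ball.1 hx).le)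
  have c {F : ℂ → ℂ} {x} (hF : ∀ s ∈ uIcc α β, AnalyticAt ℂ F (x + s)) :
      ContinuousOn (fun s : ℝ => F (x + s)) (uIcc α β) := fun s hs =>
    (ContinuousAt.comp (f := fun s : ℝ => x + s) (hF s hs).continuousAt
      (by fun_prop)).continuousWithinAt
  have c1 := c fun s hs => (h s hs).deriv
  have := (intervalIntegral.hasDerivAt_integral_of_dominated_loc_of_deriv_le
    (μ := MeasureTheory.volume) (F := fun x (s : ℝ) => g (x + s))
    (F' := fun x (s : ℝ) => deriv g (x + s)) (bound := fun _ => C) (Metric.ball_mem_nhds ξ δ0)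
    (Filter.mem_of_superset (Metric.ball_mem_nhds ξ δ0) fun x hx =>
      ((c fun s hs => hδ (m x hx s hs)).mono uIoc_subset_uIcc).aestronglyMeasurable
        measurableSet_uIoc) (c h).intervalIntegrable
    ((c1.mono uIoc_subset_uIcc).aestronglyMeasurable measurableSet_uIoc)
    (.of_forall fun s hs x hx => hC _ (m x hx s (uIoc_subset_uIcc hs))) intervalIntegrable_const
    (.of_forall fun s hs x hx => HasDerivAt.comp_add_const x _
      (hδ (m x hx s (uIoc_subset_uIcc hs))).differentiableAt.hasDerivAt)).2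
  rwa [intervalIntegral.integral_eq_sub_of_hasDerivAt (f := fun s : ℝ => g (ξ + s))
    (fun s hs => (HasDerivAt.comp_const_add ξ (s : ℂ)
      (h s hs).differentiableAt.hasDerivAt).comp_ofReal) c1.intervalIntegrable] at this

/-- The generator of the rhombic lattice. -/
noncomputable def om (T : ℝ) : ℂ := T + π / 2 * I

variable {T : ℝ} {ξ : ℂ}

@[simp] lemma om_re : (om T).re = T := by simp [om]
@[simp] lemma om_im : (om T).im = π / 2 := by simp [om]

lemma hom (hT : 0 < T) : 0 < (om T).re := by simpa using hT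

lemma Q_om : exp (-2 * om T) = -(Real.exp (-2 * T) : ℂ) := by
  rw [show -2 * om T = -2 * T - π * I by rw [om]; ring, exp_sub_pi_mul_I]
  simp

lemma mem_om (h : ξ ∈ Lat (om T)) :
    ∃ m k : ℤ, ξ.re = m * T ∧ ξ.im = ((m + 2 * k : ℤ) : ℝ) * (π / 2) := by
  obtain ⟨m, k, rfl⟩ := mem_Lat.1 h
  exact ⟨m, k, by simp, by simp; ring⟩

lemma two_mem : (2 * T : ℂ) ∈ Lat (om T) := mem_Lat.2 ⟨2, -1, by rw [om]; push_cast; ring⟩

lemma conj_mem (h : ξ ∈ Lat (om T)) : conj ξ ∈ Lat (om T) := by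
  obtain ⟨m, k, rfl⟩ := mem_Lat.1 h
  exact mem_Lat.2 ⟨m, -k - m, by simp [om, map_ofNat]; ring⟩

lemma conj_nm (h : ξ ∉ Lat (om T)) : conj ξ ∉ Lat (om T) := fun e => h (by simpa using conj_mem e)

lemma int_abs {m : ℤ} {c x : ℝ} (n : ℤ) (hc : 0 < c) (h : x = m * c) (h1 : |x| < n * c) :
    |m| < n := by
  rw [h, abs_mul, abs_of_pos hc] at h1
  exact_mod_cast lt_of_mul_lt_mul_right h1 hc.le

lemma nmA (h1 : |ξ.im| < π / 2) (h2 : ξ ≠ 0) (h3 : |ξ.re| < 2 * T) : ξ ∉ Lat (om T) := fun h => by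
  obtain ⟨m, k, a, b⟩ := mem_om h
  have c := int_abs 1 (half_pos Real.pi_pos) b (by simpa using h1)
  have d := int_abs 2 (by linarith [abs_nonneg ξ.re]) a (by simpa using h3)
  rw [abs_lt] at c d
  obtain ⟨rfl, rfl⟩ : m = 0 ∧ k = 0 := by omega
  exact h2 (Complex.ext (by simpa using a) (by simpa using b))

lemma nmB (h1 : 0 < ξ.im) (h2 : ξ.im < π / 2) : ξ ∉ Lat (om T) := fun h => by
  obtain ⟨m, k, -, b⟩ := mem_om h
  have c := int_abs 1 (half_pos Real.pi_pos) b (by simpa [abs_of_pos h1] using h2)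
  rw [b, Int.abs_lt_one_iff.1 c] at h1
  simp at h1

lemma nmC (h1 : |ξ.im| < π) (h2 : ξ ≠ 0) (h3 : |ξ.re| < T) : ξ ∉ Lat (om T) := fun h => by
  obtain ⟨m, k, a, b⟩ := mem_om h
  have c := int_abs 2 (half_pos Real.pi_pos) b (by push_cast; linarith)
  have d := int_abs 1 (by linarith [abs_nonneg ξ.re]) a (by simpa using h3)
  rw [abs_lt] at c d
  obtain ⟨rfl, rfl⟩ : m = 0 ∧ k = 0 := by omega
  exact h2 (Complex.ext (by simpa using a) (by simpa using b))

lemma nmR {x : ℝ} (h1 : x ≠ 0) (h2 : |x| < 2 * T) : (x : ℂ) ∉ Lat (om T) :=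
  nmA (by simpa using Real.pi_pos) (ofReal_ne_zero.2 h1) h2

lemma nmP {x : ℝ} (h1 : 0 < x) (h2 : x < 2 * T) : (x : ℂ) ∉ Lat (om T) :=
  nmR h1.ne' (by rwa [abs_of_pos h1])

lemma La_conj (ξ : ℂ) : La (om T) (conj ξ) = conj (La (om T) ξ) := by
  simp only [La, fr, rr, conj_tsum, Q_om, ← exp_conj, map_ofNat, map_sub, map_add, map_mul,
    map_div₀, map_neg, map_pow, map_one, conj_ofReal]

lemma Lp_conj (ξ : ℂ) : Lp (om T) (conj ξ) = conj (Lp (om T) ξ) := by
  simp only [Lp, fs, ss, conj_tsum, Q_om, ← exp_conj, map_ofNat, map_sub, map_mul,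
    map_div₀, map_neg, map_pow, map_one, conj_ofReal]

lemma La_im (x : ℝ) : (La (om T) x).im = 0 := conj_eq_iff_im.1 (by rw [← La_conj, conj_ofReal])
lemma Lp_im (x : ℝ) : (Lp (om T) x).im = 0 := conj_eq_iff_im.1 (by rw [← Lp_conj, conj_ofReal])

variable (hT : 0 < T)
include hT

lemma La_two (h : ξ ∉ Lat (om T)) : La (om T) (ξ + 2 * T) = La (om T) ξ + 4 := by
  rw [← La_pi, show ξ + 2 * T + π * I = ξ + om T + om T by rw [om]; ring, La_om (hom hT)
    (mt (add_mem_cancel_right om_mem).1 h), La_om (hom hT) h]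
  ring

lemma La_sub (h : ξ ∉ Lat (om T)) : La (om T) (om T - ξ) = 2 - La (om T) ξ := by
  rw [sub_eq_neg_add, La_om (hom hT) (mt neg_mem_iff.1 h), La_neg (hom hT) h]; ring

lemma La_T : La (om T) T = 2 := by
  have h := nmP hT (by linarith)
  have := La_two hT (mt neg_mem_iff.1 h)
  rw [La_neg (hom hT) h, show -(T : ℂ) + 2 * T = T by ring] at this
  linear_combination this / 2

lemma hd_Lp {x : ℝ} (h : (x : ℂ) ∉ Lat (om T)) :
    HasDerivAt (fun x : ℝ => (Lp (om T) x).re) (deriv (Lp (om T)) x).re x :=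
  (an_Lp (hom hT) h).differentiableAt.hasDerivAt.real_of_complex

lemma Lp_mono : StrictMonoOn (fun x : ℝ => (Lp (om T) x).re) (Ioc 0 T) := by
  have n (x) (hx : x ∈ Ioc 0 T) : (x : ℂ) ∉ Lat (om T) := nmP hx.1 (by linarith [hx.2])
  have c : ContinuousOn (fun x : ℝ => (Lp (om T) x).re) (Ioc 0 T) := fun x hx =>
    (hd_Lp hT (n x hx)).continuousAt.continuousWithinAt
  have i : InjOn (fun x : ℝ => (Lp (om T) x).re) (Ioc 0 T) := fun x hx y hy e => by
    by_contra hne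
    obtain h | h := deg2 (hom hT) (n y hy) (n x hx) (Complex.ext e (by simp [Lp_im]))
    · exact nmR (T := T) (sub_ne_zero.2 hne)
        (abs_lt.2 ⟨by linarith [hx.1, hy.2], by linarith [hx.2, hy.1]⟩) (by exact_mod_cast h)
    · refine nmP (T := T) (add_pos hx.1 hy.1) (lt_of_le_of_ne (by linarith [hx.2, hy.2]) fun e => hne ?_)
        (by exact_mod_cast h)
      linarith [hx.2, hy.2]
  intro x hx y hy hxy
  obtain ⟨k, ak, hk⟩ := ok_Lp (hom hT)
  have t : Tendsto (fun x : ℝ => (x : ℂ)) (𝓝[>] 0) (𝓝[≠] 0) := tendsto_nhdsWithin_iff.2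
    ⟨(continuous_ofReal.tendsto' 0 0 rfl).mono_left nhdsWithin_le_nhds,
      eventually_mem_nhdsWithin.mono fun x hx => ofReal_ne_zero.2 (ne_of_gt hx)⟩
  have t2 : Tendsto (fun x : ℝ => (Lp (om T) x).re) (𝓝[>] 0) atBot := by
    refine (((continuous_re.tendsto _).comp ((ak.continuousAt.tendsto.mono_left
      nhdsWithin_le_nhds).comp t)).add_atBot (tendsto_neg_atTop_atBot.comp
        ((tendsto_pow_atTop two_ne_zero).comp tendsto_inv_nhdsGT_zero))).congr' ?_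
    filter_upwards [t.eventually hk] with x hx
    simp only [Function.comp, ← hx, add_re]
    norm_cast
    simp
  obtain ⟨z, h1, h2⟩ := ((t2.eventually_lt_atBot (Lp (om T) y).re).and (Ioo_mem_nhdsGT hx.1)).exists
  have s : Icc z y ⊆ Ioc 0 T := fun w hw => ⟨h2.1.trans_le hw.1, hw.2.trans hy.2⟩
  exact (c.mono s).strictMonoOn_of_injOn_Icc (h2.2.trans hxy).le h1.le (i.mono s)
    ⟨h2.2.le, hxy.le⟩ ⟨(h2.2.trans hxy).le, le_rfl⟩ hxy

lemma Lp_half : (Lp (om T) (T / 2 : ℝ)).re < 0 := by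
  have q := nQ (hom hT)
  have a : exp (-2 * ((T / 2 : ℝ) : ℂ)) = Real.exp (-T) := by push_cast; congr 1; ring
  have b : exp (-2 * om T) * exp (2 * ((T / 2 : ℝ) : ℂ)) = -Real.exp (-T) := by
    rw [Q_om]; push_cast; rw [neg_mul, ← exp_add]; congr 2; ring
  have e1 : Real.exp (-T) < 1 := Real.exp_lt_one_iff.2 (by linarith)
  rw [Lp, a, b, ← neg_add', fs, fs, ← (sm_ss q _).tsum_add (sm_ss q _), neg_re, neg_lt_zero,
    re_tsum ((sm_ss q _).add (sm_ss q _))]
  have p (n : ℕ) : 0 < (ss (exp (-2 * om T) ^ n * Real.exp (-T)) +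
      ss (exp (-2 * om T) ^ n * -Real.exp (-T))).re := by
    have := (norm_pm q.le n (Real.exp (-T))).trans_lt
      (by rw [norm_real, Real.norm_of_nonneg (Real.exp_pos _).le]; exact e1)
    rw [Q_om] at this ⊢
    rw [mul_neg, ← ofReal_neg, ← ofReal_pow, ← ofReal_mul]
    rw [← ofReal_neg, ← ofReal_pow, ← ofReal_mul, norm_real] at this
    have h0 : (-Real.exp (-2 * T)) ^ n * Real.exp (-T) ≠ 0 :=
      mul_ne_zero (pow_ne_zero _ (neg_ne_zero.2 (Real.exp_ne_zero _))) (Real.exp_ne_zero _)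
    generalize (-Real.exp (-2 * T)) ^ n * Real.exp (-T) = w at *
    obtain ⟨h1, h2⟩ := abs_lt.1 this
    have h3 : 0 < 1 - w := by linarith
    have h4 : 0 < 1 - -w := by linarith
    simp only [ss]
    norm_cast
    rw [show 4 * w / (1 - w) ^ 2 + 4 * -w / (1 - -w) ^ 2 = 16 * w ^ 2 / ((1 - w) * (1 - -w)) ^ 2 by
      field_simp; ring]
    positivity
  exact (((sm_ss q _).add (sm_ss q _)).mapL reCLM).tsum_pos (fun n => (p n).le) 0 (p 0)

/-- The real-linear map `x ↦ (u x + conj (v x)) / 2`. -/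
noncomputable def dP (u v : ℂ) : ℂ →L[ℝ] ℂ :=
  (1 / 2 : ℂ) • (u • (1 : ℂ →L[ℝ] ℂ) + (conjCLE : ℂ →L[ℝ] ℂ).comp (v • (1 : ℂ →L[ℝ] ℂ)))

/-- The normal form of a symmetric surface: `P` is the horizontal part, `-(La ξ).im` the height. -/
structure Surf (T b a e : ℝ) (f P : ℂ → ℂ) : Prop where
  hb : 0 < b
  hT : b < T
  zero : Lp (om T) b = 0
  hol : DifferentiableOn ℂ f (Lat (om T) : Set ℂ)ᶜ
  per : ∀ l ∈ Lat (om T), ∀ z ∉ Lat (om T), f (z + l) = f z
  mul : ∀ z ∉ Lat (om T), f z * f (-z) = Lp (om T) z ^ 2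
  cnj : ∀ z ∉ Lat (om T), f (conj z) = conj (f z)
  fT : f T = Lp (om T) T
  ode : ∀ z ∉ Lat (om T), z - b ∉ Lat (om T) → deriv f z =
    (2 * La (om T) (z - b) - 2 * La (om T) z - a * Lp (om T) z + e) * f z
  nz : ∀ z ∉ Lat (om T), z - b ∉ Lat (om T) → f z ≠ 0
  der : ∀ z ∉ Lat (om T), HasFDerivAt P (dP (f z) (f (-z))) z
  Pper : ∀ l ∈ Lat (om T), ∀ z ∉ Lat (om T), P (z + l) = P z
  Pneg : ∀ z ∉ Lat (om T), P (-conj z) = -P z
  inj : ∀ z ∉ Lat (om T), ∀ w ∉ Lat (om T), P z = P w → (La (om T) z).im = (La (om T) w).im →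
    z - w ∈ Lat (om T)
  prop : Tendsto (fun x : ℝ => ‖P x‖) (𝓝[>] 0) atTop

namespace Surf

omit hT
variable {b a e : ℝ} {f P : ℂ → ℂ} (h : Surf T b a e f P)
include h

lemma pos : 0 < T := h.hb.trans h.hT

lemma half : T / 2 < b := by
  by_contra! H
  have := (Lp_mono h.pos).monotoneOn ⟨h.hb, h.hT.le⟩ ⟨half_pos h.pos, half_le_self h.pos.le⟩ H
  simp only [h.zero, zero_re] at this
  exact this.not_gt (Lp_half h.pos)

lemma curve {γ : ℝ → ℂ} {γ' : ℂ} {t : ℝ} (hγ : HasDerivAt γ γ' t) (ht : γ t ∉ Lat (om T)) :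
    HasDerivAt (fun t => P (γ t)) ((f (γ t) * γ' + conj (f (-γ t) * γ')) / 2) t :=
  ((h.der _ ht).comp_hasDerivAt t hγ).congr_deriv (by simp [dP]; ring)

lemma f_im {x : ℝ} (hx : (x : ℂ) ∉ Lat (om T)) : (f x).im = 0 :=
  conj_eq_iff_im.1 (by rw [← h.cnj _ hx, conj_ofReal])

lemma LpT : 0 < (Lp (om T) T).re := by
  simpa [h.zero] using Lp_mono h.pos ⟨h.hb, h.hT.le⟩ ⟨h.pos, le_rfl⟩ h.hT

lemma f_pos {x : ℝ} (h1 : b < x) (h2 : x < 2 * T) : 0 < (f x).re := by
  have n (x) (hx : x ∈ Ioo b (2 * T)) : (x : ℂ) ∉ Lat (om T) := nmP (h.hb.trans hx.1) hx.2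
  refine isPreconnected_Ioo.lt_of_ne (f := fun x : ℝ => (f x).re) (fun x hx => ?_) (fun x hx e => ?_)
    ⟨T, ⟨h.hT, by linarith [h.pos]⟩, by rw [h.fT]; exact h.LpT⟩ ⟨h1, h2⟩
  · exact (an_of (hom h.pos) h.hol (n x hx)).differentiableAt.hasDerivAt.real_of_complex
      |>.continuousAt.continuousWithinAt
  · exact h.nz _ (n x hx) (by exact_mod_cast nmP (sub_pos.2 hx.1) (by linarith [hx.2, h.hb]))
      (Complex.ext e (h.f_im (n x hx)))

lemma f_neg {x : ℝ} (h1 : 0 < x) (h2 : x < 2 * T) : f (-x) = f (2 * T - x : ℝ) := by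
  rw [← h.per _ two_mem _ (mt neg_mem_iff.1 (nmP h1 h2))]
  congr 1; push_cast; ring

/-- `|Lp| ≤ (f x + f (-x)) / 2` on the real axis. -/
lemma amgm {x : ℝ} (h1 : 0 < x) (h2 : x < 2 * T) :
    0 < (f x).re + (f (-x)).re ∧ 2 * (Lp (om T) x).re ≤ (f x).re + (f (-x)).re := by
  have n := nmP h1 h2
  have m := congrArg re (h.mul _ n)
  have i := h.f_im (x := -x) (by push_cast; exact mt neg_mem_iff.1 n)
  rw [ofReal_neg] at i
  simp only [sq, mul_re, h.f_im n, i, Lp_im, mul_zero, sub_zero] at m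
  have p : 0 < (f x).re ∨ 0 < (f (-x)).re := by
    rcases lt_or_ge b x with H | H
    · exact .inl (h.f_pos H h2)
    · rw [h.f_neg h1 h2]
      exact .inr (h.f_pos (by linarith [h.hT]) (by linarith))
  have q : 0 ≤ (f x).re ∧ 0 ≤ (f (-x)).re := by
    have := mul_self_nonneg (Lp (om T) x).re
    rcases p with p | p
    exacts [⟨p.le, by nlinarith⟩, ⟨by nlinarith, p.le⟩]
  refine ⟨by rcases p with p | p <;> linarith [q.1, q.2], (le_abs_self _).trans
    (abs_le_of_sq_le_sq' ?_ (by linarith [q.1, q.2])).2⟩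
  nlinarith [sq_nonneg ((f x).re - (f (-x)).re), sq_abs (2 * (Lp (om T) x).re)]

lemma P_T : P T = 0 := by
  have n := nmP h.pos (by linarith [h.pos])
  have := h.Pper _ two_mem _ (mt neg_mem_iff.1 n)
  rw [show -(T : ℂ) + 2 * T = T by ring, ← conj_ofReal, h.Pneg _ n, conj_ofReal] at this
  linear_combination this / 2

lemma P_conj {z : ℂ} (hz : z ∉ Lat (om T)) : P (conj z) = conj (P z) := by
  have d (z) (hz : z ∉ Lat (om T)) : HasFDerivAt (fun z => P (conj z) - conj (P z))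
      (0 : ℂ →L[ℝ] ℂ) z := by
    refine (((h.der _ (conj_nm hz)).comp z conjCLE.hasFDerivAt).sub
      (conjCLE.hasFDerivAt.comp z (h.der _ hz))).congr_fderiv ?_
    ext1 v
    rw [← map_neg, h.cnj _ hz, h.cnj _ (mt neg_mem_iff.1 hz)]
    simp [dP, map_ofNat]
  have := (open_U (hom h.pos)).is_const_of_fderiv_eq_zero (𝕜 := ℝ) conn_U
    (fun z hz => (d z hz).differentiableAt.differentiableWithinAt) (fun z hz => (d z hz).fderiv) hz
    (nmP h.pos (by linarith [h.pos]))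
  simpa [h.P_T, sub_eq_zero] using this

end Surf

end Pool.Agent.MP_c434f6_gt
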